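import Pool.Agent.X62.NP.Ker

set_option autoImplicit false

/-! Schur multipliers of pairs of resolutions of the identity in a `C*`-algebra. -/

namespace Pool.Agent.X62.NP

open Finset MeasureTheory intervalIntegral

variable {A : Type*} [CStarAlgebra A] {ι κ : Type*} [Fintype ι] [Fintype κ]

/-- A finite resolution of the identity by pairwise orthogonal self-adjoint projections. -/
structure Res (Q : ι → A) : Prop where
  sa : ∀ i, star (Q i) = Q i
  idem : ∀ i, Q i * Q i = Q i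
  orth : ∀ i j, i ≠ j → Q i * Q j = 0
  sum : ∑ i, Q i = 1

namespace Res

variable {Q : ι → A} {P : κ → A}

theorem mul_sum (hQ : Res Q) (c : ι → ℂ) (i : ι) : Q i * ∑ j, c j • Q j = c i • Q i := by
  classical
  rw [Finset.mul_sum, Finset.sum_eq_single i]
  · rw [mul_smul_comm, hQ.idem]
  · intro j _ hj
    rw [mul_smul_comm, hQ.orth i j (Ne.symm hj), smul_zero]
  · intro h
    exact absurd (mem_univ i) h

theorem sum_mul (hQ : Res Q) (c : ι → ℂ) (i : ι) : (∑ j, c j • Q j) * Q i = c i • Q i := by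
  classical
  rw [Finset.sum_mul, Finset.sum_eq_single i]
  · rw [smul_mul_assoc, hQ.idem]
  · intro j _ hj
    rw [smul_mul_assoc, hQ.orth j i hj, smul_zero]
  · intro h
    exact absurd (mem_univ i) h

theorem mul (hQ : Res Q) (c d : ι → ℂ) :
    (∑ j, c j • Q j) * (∑ j, d j • Q j) = ∑ j, (c j * d j) • Q j := by
  rw [Finset.sum_mul]
  refine sum_congr rfl fun i _ => ?_
  rw [smul_mul_assoc, hQ.mul_sum, smul_smul]

theorem star_sum (hQ : Res Q) (c : ι → ℂ) :
    star (∑ j, c j • Q j) = ∑ j, (star (c j)) • Q j := by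
  rw [_root_.star_sum]
  refine sum_congr rfl fun i _ => ?_
  rw [star_smul, hQ.sa]

theorem norm_le (hQ : Res Q) (c : ι → ℂ) (hc : ∀ i, ‖c i‖ = 1) : ‖∑ j, c j • Q j‖ ≤ 1 := by
  have h1 : star (∑ j, c j • Q j) * (∑ j, c j • Q j) = 1 := by
    rw [hQ.star_sum, hQ.mul, ← hQ.sum]
    refine sum_congr rfl fun i _ => ?_
    have h2 : star (c i) * c i = 1 := by
      have h3 := Complex.conj_mul' (c i)
      rw [hc i] at h3
      simpa using h3
    rw [h2, one_smul]
  have h2 := CStarRing.norm_star_mul_self (x := ∑ j, c j • Q j)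
  rw [h1] at h2
  rcases subsingleton_or_nontrivial A with h | h
  · rw [Subsingleton.elim (∑ j, c j • Q j) 0, norm_zero]
    exact zero_le_one
  · rw [CStarRing.norm_one] at h2
    nlinarith [norm_nonneg (∑ j, c j • Q j)]

theorem ext (hQ : Res Q) (hP : Res P) (X Y : A)
    (h : ∀ i l, Q i * X * P l = Q i * Y * P l) : X = Y := by
  have key : ∀ Z : A, Z = ∑ i, ∑ l, Q i * Z * P l := by
    intro Z
    calc Z = (∑ i, Q i) * Z * (∑ l, P l) := by rw [hQ.sum, hP.sum, one_mul, mul_one]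
      _ = ∑ i, ∑ l, Q i * Z * P l := by
          rw [Finset.sum_mul, Finset.sum_mul]
          exact sum_congr rfl fun i _ => Finset.mul_sum _ _ _
  rw [key X, key Y]
  exact sum_congr rfl fun i _ => sum_congr rfl fun l _ => h i l

end Res

/-- Schur multiplication by the Fourier coefficients of an integrable function. -/
theorem mult {Q : ι → A} {P : κ → A} (hQ : Res Q) (hP : Res P) (φ : ι → ℤ) (ψ : κ → ℤ)
    (h : ℝ → ℂ) (hh : Continuous h) (Y : A) :
    ∃ T : A, ‖T‖ ≤ (∫ t in (0 : ℝ)..1, ‖h t‖) * ‖Y‖ ∧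
      ∀ i l, Q i * T * P l = (∫ t in (0 : ℝ)..1, h t * e (φ i - ψ l) t) • (Q i * Y * P l) := by
  set U : ℝ → A := fun t => ∑ i, e (φ i) t • Q i with hU
  set V : ℝ → A := fun t => ∑ l, e (-ψ l) t • P l with hV
  have hUc : Continuous U := continuous_finsetSum _ fun i _ => (e_cont _).smul continuous_const
  have hVc : Continuous V := continuous_finsetSum _ fun i _ => (e_cont _).smul continuous_const
  have hn : ∀ (m : ℤ) (t : ℝ), ‖e m t‖ = 1 := by
    intro m t
    unfold e
    rw [Complex.norm_exp]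
    simp
  have hUn : ∀ t, ‖U t‖ ≤ 1 := fun t => hQ.norm_le _ fun i => hn _ _
  have hVn : ∀ t, ‖V t‖ ≤ 1 := fun t => hP.norm_le _ fun i => hn _ _
  have hFc : Continuous fun t => h t • (U t * Y * V t) :=
    hh.smul ((hUc.mul continuous_const).mul hVc)
  refine ⟨∫ t in (0 : ℝ)..1, h t • (U t * Y * V t), ?_, ?_⟩
  · rw [← intervalIntegral.integral_mul_const]
    refine intervalIntegral.norm_integral_le_of_norm_le zero_le_one
      (Filter.Eventually.of_forall fun t _ => ?_)
      ((hh.norm.mul continuous_const).intervalIntegrable _ _)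
    rw [norm_smul]
    refine mul_le_mul_of_nonneg_left ?_ (norm_nonneg _)
    calc ‖U t * Y * V t‖ ≤ ‖U t * Y‖ * ‖V t‖ := norm_mul_le _ _
      _ ≤ (‖U t‖ * ‖Y‖) * ‖V t‖ := mul_le_mul_of_nonneg_right (norm_mul_le _ _) (norm_nonneg _)
      _ ≤ (1 * ‖Y‖) * 1 := mul_le_mul (mul_le_mul_of_nonneg_right (hUn t) (norm_nonneg _))
          (hVn t) (norm_nonneg _) (by positivity)
      _ = ‖Y‖ := by ring
  · intro i l
    have h1 := ContinuousLinearMap.intervalIntegral_comp_comm (μ := volume) (a := 0) (b := 1)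
      (ContinuousLinearMap.mulLeftRight ℂ A (Q i) (P l))
      (hFc.intervalIntegrable 0 1)
    simp only [ContinuousLinearMap.mulLeftRight_apply] at h1
    rw [← h1, ← intervalIntegral.integral_smul_const]
    refine intervalIntegral.integral_congr fun t _ => ?_
    show Q i * (h t • (U t * Y * V t)) * P l = _
    rw [mul_smul_comm, smul_mul_assoc]
    have h2 : Q i * (U t * Y * V t) * P l = (Q i * U t) * Y * (V t * P l) := by
      simp only [mul_assoc]
    rw [h2]
    simp only [hU, hV]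
    rw [hQ.mul_sum, hP.sum_mul, smul_mul_assoc, mul_smul_comm, smul_mul_assoc, smul_smul, smul_smul,
      sub_eq_add_neg, ← e_mul]
    congr 1
    ring

open Classical in
/-- The part `∑ Q i * P l` over the pairs of equal labels is close to `1` when the pairs with
different labels are far apart in one of the two integer coordinates. -/
theorem near_one (η : ℝ) (hη : 0 < η) : ∃ R : ℕ, ∀ (A : Type*) [CStarAlgebra A]
    (ι κ : Type*) [Fintype ι] [Fintype κ] (Q : ι → A) (P : κ → A), Res Q → Res P →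
    ∀ (x1 x2 : ι → ℤ) (y1 y2 : κ → ℤ) (j : ι → ℤ) (k : κ → ℤ),
    (∀ i l, j i ≠ k l → (R : ℤ) ≤ |x1 i - y1 l| ∨ (R : ℤ) ≤ |x2 i - y2 l|) →
    ‖∑ i, (x1 i : ℂ) • Q i - ∑ l, (y1 l : ℂ) • P l‖ ≤ 4 →
    ‖∑ i, (x2 i : ℂ) • Q i - ∑ l, (y2 l : ℂ) • P l‖ ≤ 4 →
    ‖1 - ∑ i, ∑ l, (if j i = k l then Q i * P l else 0)‖ ≤ η := by
  obtain ⟨R1, hR1, h1, h1c, h1i, h1f⟩ := kernel (η / 16) (by positivity)
  obtain ⟨R2, hR2, h2, h2c, h2i, h2f⟩ := kernel (η / (16 * (2 * R1 + 1))) (by positivity)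
  obtain ⟨D, Dc, Di, Df⟩ := dirichlet R1
  refine ⟨max R1 R2, ?_⟩
  intro A _ ι κ _ _ Q P hQ hP x1 x2 y1 y2 j k hsep hn1 hn2
  set Y1 : A := ∑ i, (x1 i : ℂ) • Q i - ∑ l, (y1 l : ℂ) • P l with hY1
  set Y2 : A := ∑ i, (x2 i : ℂ) • Q i - ∑ l, (y2 l : ℂ) • P l with hY2
  have hb1 : ∀ i l, Q i * Y1 * P l = (((x1 i - y1 l : ℤ)) : ℂ) • (Q i * P l) := by
    intro i l
    rw [hY1, mul_sub, sub_mul, hQ.mul_sum, mul_assoc (Q i) (∑ l, (y1 l : ℂ) • P l) (P l), hP.sum_mul,
      smul_mul_assoc, mul_smul_comm, ← sub_smul]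
    push_cast
    rfl
  have hb2 : ∀ i l, Q i * Y2 * P l = (((x2 i - y2 l : ℤ)) : ℂ) • (Q i * P l) := by
    intro i l
    rw [hY2, mul_sub, sub_mul, hQ.mul_sum, mul_assoc (Q i) (∑ l, (y2 l : ℂ) • P l) (P l), hP.sum_mul,
      smul_mul_assoc, mul_smul_comm, ← sub_smul]
    push_cast
    rfl
  -- off-diagonal parts
  have off : ∀ Y : A, ‖Y‖ ≤ 4 → ∃ Z : A, ‖Z‖ ≤ 8 ∧
      ∀ i l, Q i * Z * P l = if j i = k l then 0 else Q i * Y * P l := by
    intro Y hY
    obtain ⟨T, hT, hTb⟩ := mult hQ hP j k (fun _ => 1) continuous_const Y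
    refine ⟨Y - T, ?_, ?_⟩
    · have : ‖T‖ ≤ ‖Y‖ := by simpa using hT
      calc ‖Y - T‖ ≤ ‖Y‖ + ‖T‖ := norm_sub_le _ _
        _ ≤ 8 := by linarith
    · intro i l
      rw [mul_sub, sub_mul, hTb]
      simp only [one_mul, int_e, sub_eq_zero]
      split_ifs with h
      · simp
      · simp
  obtain ⟨Z1, hZ1, hZ1b⟩ := off Y1 hn1
  obtain ⟨Z2, hZ2, hZ2b⟩ := off Y2 hn2
  obtain ⟨T1, hT1, hT1b⟩ := mult hQ hP x1 y1 h1 h1c Z1
  obtain ⟨T2, hT2, hT2b⟩ := mult hQ hP x2 y2 h2 h2c Z2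
  obtain ⟨T3, hT3, hT3b⟩ := mult hQ hP x1 y1 D Dc T2
  have hW : 1 - ∑ i, ∑ l, (if j i = k l then Q i * P l else 0) = T1 + T3 := by
    refine hQ.ext hP _ _ fun i l => ?_
    have hl : Q i * (∑ i, ∑ l, (if j i = k l then Q i * P l else 0)) * P l =
        if j i = k l then Q i * P l else 0 := by
      rw [Finset.mul_sum, Finset.sum_mul, Finset.sum_eq_single i]
      · rw [Finset.mul_sum, Finset.sum_mul, Finset.sum_eq_single l]
        · split_ifs with h
          · rw [← mul_assoc, hQ.idem, mul_assoc, hP.idem]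
          · simp
        · intro b _ hb
          split_ifs with h
          · rw [← mul_assoc, hQ.idem, mul_assoc, hP.orth b l hb, mul_zero]
          · simp
        · intro h
          exact absurd (mem_univ l) h
      · intro a _ ha
        rw [Finset.mul_sum, Finset.sum_mul]
        refine sum_eq_zero fun b _ => ?_
        split_ifs with h
        · rw [← mul_assoc, hQ.orth i a (Ne.symm ha), zero_mul, zero_mul]
        · simp
      · intro h
        exact absurd (mem_univ i) h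
    rw [mul_sub, sub_mul, hl, mul_one, mul_add, add_mul, hT1b, hT3b, hT2b, hZ1b, hZ2b, h1f, h2f, Df,
      hb1, hb2]
    by_cases hjk : j i = k l
    · simp [hjk]
    · rw [if_neg hjk, if_neg hjk, if_neg hjk, sub_zero]
      by_cases ha : (R1 : ℤ) ≤ |x1 i - y1 l|
      · rw [if_pos ha, if_neg (not_lt.2 ha), zero_smul, add_zero, smul_smul]
        by_cases h0 : x1 i - y1 l = 0
        · rw [h0, abs_zero] at ha
          omega
        · have : (((x1 i - y1 l : ℤ)) : ℂ) ≠ 0 := by exact_mod_cast h0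
          rw [one_div, inv_mul_cancel₀ this, one_smul]
      · rw [if_neg ha, if_pos (not_le.1 ha), zero_smul, zero_add, one_smul]
        have hm := hsep i l hjk
        have hb : ((R2 : ℕ) : ℤ) ≤ |x2 i - y2 l| := by
          rcases hm with hm | hm
          · exact absurd (le_trans (by exact_mod_cast le_max_left R1 R2) hm) ha
          · exact le_trans (by exact_mod_cast le_max_right R1 R2) hm
        rw [if_pos hb, smul_smul]
        by_cases h0 : x2 i - y2 l = 0
        · rw [h0, abs_zero] at hb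
          omega
        · have : (((x2 i - y2 l : ℤ)) : ℂ) ≠ 0 := by exact_mod_cast h0
          rw [one_div, inv_mul_cancel₀ this, one_smul]
  rw [hW]
  have e1 : ‖T1‖ ≤ η / 2 := by
    refine hT1.trans ?_
    calc (∫ t in (0 : ℝ)..1, ‖h1 t‖) * ‖Z1‖ ≤ (η / 16) * 8 :=
          mul_le_mul h1i hZ1 (norm_nonneg _) (by positivity)
      _ = η / 2 := by ring
  have e2 : ‖T2‖ ≤ (η / (16 * (2 * R1 + 1))) * 8 :=
    hT2.trans (mul_le_mul h2i hZ2 (norm_nonneg _) (by positivity))
  have e3 : ‖T3‖ ≤ η / 2 := by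
    refine hT3.trans ?_
    calc (∫ t in (0 : ℝ)..1, ‖D t‖) * ‖T2‖ ≤ (2 * R1) * ((η / (16 * (2 * R1 + 1))) * 8) :=
          mul_le_mul Di e2 (norm_nonneg _) (by positivity)
      _ ≤ (2 * R1 + 1) * ((η / (16 * (2 * R1 + 1))) * 8) :=
          mul_le_mul_of_nonneg_right (by linarith) (by positivity)
      _ = η / 2 := by
          field_simp
          ring
  calc ‖T1 + T3‖ ≤ ‖T1‖ + ‖T3‖ := norm_add_le _ _
    _ ≤ η := by linarith

end Pool.Agent.X62.NP
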