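import Pool.Agent.X62.NP.Pol
import Pool.Agent.X62.NP.Mult

set_option autoImplicit false

/-! Operations on Lipschitz paths of normal elements, and norms of spectral sums. -/

namespace Pool.Agent.X62.NP

open Set Finset

variable {A : Type*} [CStarAlgebra A]

/-- clamping to `[0, 1]` -/
noncomputable def cl (t : ℝ) : ℝ := max 0 (min 1 t)

theorem cl_mem (t : ℝ) : cl t ∈ Icc (0 : ℝ) 1 :=
  ⟨le_max_left _ _, max_le zero_le_one (min_le_left _ _)⟩

theorem cl_lip (s t : ℝ) : |cl s - cl t| ≤ |s - t| := by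
  unfold cl
  calc |max 0 (min 1 s) - max 0 (min 1 t)| ≤ |min 1 s - min 1 t| := by
        have := abs_max_sub_max_le_max 0 (min 1 s) 0 (min 1 t)
        simpa using this
    _ ≤ |s - t| := by
        have := abs_min_sub_min_le_max 1 s 1 t
        simpa using this

theorem cl_of_le (t : ℝ) (h : t ≤ 0) : cl t = 0 := by
  unfold cl
  rw [min_eq_right (by linarith), max_eq_left h]

theorem cl_of_ge (t : ℝ) (h : 1 ≤ t) : cl t = 1 := by
  unfold cl
  rw [min_eq_left h, max_eq_right zero_le_one]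

theorem cl_of_mem (t : ℝ) (h0 : 0 ≤ t) (h1 : t ≤ 1) : cl t = t := by
  unfold cl
  rw [min_eq_right h1, max_eq_right h0]

theorem Conn.mono {K K' : ℝ} {X Y : A} (h : Conn K X Y) (hK : K ≤ K') : Conn K' X Y := by
  obtain ⟨γ, g0, g1, gn, gl⟩ := h
  exact ⟨γ, g0, g1, gn, fun s hs t ht => (gl s hs t ht).trans
    (mul_le_mul_of_nonneg_right hK (abs_nonneg _))⟩

theorem Conn.symm {K : ℝ} {X Y : A} (h : Conn K X Y) : Conn K Y X := by
  obtain ⟨γ, g0, g1, gn, gl⟩ := h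
  have hm : ∀ t ∈ Icc (0 : ℝ) 1, 1 - t ∈ Icc (0 : ℝ) 1 := fun t ht =>
    ⟨by linarith [ht.2], by linarith [ht.1]⟩
  refine ⟨fun t => γ (1 - t), ?_, ?_, fun t ht => gn _ (hm t ht), fun s hs t ht => ?_⟩
  · simpa using g1
  · simpa using g0
  · have := gl _ (hm s hs) _ (hm t ht)
    rwa [show (1 - s) - (1 - t) = -(s - t) by ring, abs_neg] at this

theorem Conn.trans {K L : ℝ} {X Y Z : A} (hK : 0 ≤ K) (hL : 0 ≤ L) (h : Conn K X Y)
    (h' : Conn L Y Z) : Conn (2 * (K + L)) X Z := by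
  obtain ⟨γ, g0, g1, gn, gl⟩ := h
  obtain ⟨δ, d0, d1, dn, dl⟩ := h'
  refine ⟨fun t => γ (cl (2 * t)) + δ (cl (2 * t - 1)) - Y, ?_, ?_, fun t ht => ?_,
    fun s hs t ht => ?_⟩
  · show γ (cl (2 * 0)) + δ (cl (2 * 0 - 1)) - Y = X
    rw [cl_of_le (2 * 0) (by norm_num), cl_of_le (2 * 0 - 1) (by norm_num), g0, d0]
    abel
  · show γ (cl (2 * 1)) + δ (cl (2 * 1 - 1)) - Y = Z
    rw [cl_of_ge (2 * 1) (by norm_num), cl_of_ge (2 * 1 - 1) (by norm_num), g1, d1]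
    abel
  · show IsStarNormal (γ (cl (2 * t)) + δ (cl (2 * t - 1)) - Y)
    rcases le_total t (1 / 2) with h | h
    · rw [cl_of_le (2 * t - 1) (by linarith), d0, add_sub_cancel_right]
      exact gn _ (cl_mem _)
    · rw [cl_of_ge (2 * t) (by linarith), g1, add_sub_cancel_left]
      exact dn _ (cl_mem _)
  · show ‖(γ (cl (2 * s)) + δ (cl (2 * s - 1)) - Y) - (γ (cl (2 * t)) + δ (cl (2 * t - 1)) - Y)‖ ≤ _
    have e : (γ (cl (2 * s)) + δ (cl (2 * s - 1)) - Y) - (γ (cl (2 * t)) + δ (cl (2 * t - 1)) - Y) =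
        (γ (cl (2 * s)) - γ (cl (2 * t))) + (δ (cl (2 * s - 1)) - δ (cl (2 * t - 1))) := by abel
    rw [e]
    have c1 := cl_lip (2 * s) (2 * t)
    have c2 := cl_lip (2 * s - 1) (2 * t - 1)
    have e1 : |2 * s - 2 * t| = 2 * |s - t| := by
      rw [← mul_sub, abs_mul, abs_two]
    have e2 : |2 * s - 1 - (2 * t - 1)| = 2 * |s - t| := by
      rw [← e1]
      congr 1
      ring
    rw [e1] at c1
    rw [e2] at c2
    calc ‖(γ (cl (2 * s)) - γ (cl (2 * t))) + (δ (cl (2 * s - 1)) - δ (cl (2 * t - 1)))‖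
        ≤ ‖γ (cl (2 * s)) - γ (cl (2 * t))‖ + ‖δ (cl (2 * s - 1)) - δ (cl (2 * t - 1))‖ :=
          norm_add_le _ _
      _ ≤ K * (2 * |s - t|) + L * (2 * |s - t|) :=
          add_le_add ((gl _ (cl_mem _) _ (cl_mem _)).trans (mul_le_mul_of_nonneg_left c1 hK))
            ((dl _ (cl_mem _) _ (cl_mem _)).trans (mul_le_mul_of_nonneg_left c2 hL))
      _ = 2 * (K + L) * |s - t| := by ring

theorem Conn.smul {K : ℝ} {X Y : A} (M : ℝ) (h : Conn K X Y) :
    Conn (|M| * K) ((M : ℂ) • X) ((M : ℂ) • Y) := by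
  obtain ⟨γ, g0, g1, gn, gl⟩ := h
  refine ⟨fun t => (M : ℂ) • γ t, by simp only [g0], by simp only [g1], fun t ht => ?_,
    fun s hs t ht => ?_⟩
  · have h := (gn t ht).star_comm_self
    have h' : star (γ t) * γ t = γ t * star (γ t) := h
    constructor
    show star ((M : ℂ) • γ t) * ((M : ℂ) • γ t) = ((M : ℂ) • γ t) * star ((M : ℂ) • γ t)
    rw [star_smul, smul_mul_smul_comm, smul_mul_smul_comm, h', mul_comm]
  · show ‖(M : ℂ) • γ s - (M : ℂ) • γ t‖ ≤ _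
    rw [← smul_sub, norm_smul, Complex.norm_real, Real.norm_eq_abs, mul_assoc]
    exact mul_le_mul_of_nonneg_left (gl s hs t ht) (abs_nonneg _)

theorem unimod (z : ℂ) (hz : ‖z‖ ≤ 1) : ∃ u v : ℂ, ‖u‖ = 1 ∧ ‖v‖ = 1 ∧ 2 * z = u + v := by
  have h1 : ((‖z‖ : ℝ) : ℂ) * Complex.exp (z.arg * Complex.I) = z := Complex.norm_mul_exp_arg_mul_I z
  set r := ‖z‖ with hr
  have hr0 : 0 ≤ r := norm_nonneg z
  set s := Real.sqrt (1 - r ^ 2) with hs
  have hs2 : s ^ 2 = 1 - r ^ 2 := Real.sq_sqrt (by nlinarith)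
  have hn : ‖Complex.exp (z.arg * Complex.I)‖ = 1 := Complex.norm_exp_ofReal_mul_I _
  have hp : ‖(r : ℂ) + s * Complex.I‖ = 1 := by
    rw [Complex.norm_add_mul_I, hs2]
    norm_num
  have hm : ‖(r : ℂ) + (-s : ℝ) * Complex.I‖ = 1 := by
    rw [Complex.norm_add_mul_I, neg_sq, hs2]
    norm_num
  refine ⟨((r : ℂ) + s * Complex.I) * Complex.exp (z.arg * Complex.I),
    ((r : ℂ) + (-s : ℝ) * Complex.I) * Complex.exp (z.arg * Complex.I), ?_, ?_, ?_⟩
  · rw [norm_mul, hn, hp, one_mul]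
  · rw [norm_mul, hn, hm, one_mul]
  · conv_lhs => rw [← h1]
    push_cast
    ring

theorem Res.norm_sum_le {ι : Type*} [Fintype ι] {Q : ι → A} (hQ : Res Q) (c : ι → ℂ) (M : ℝ)
    (hM : 0 ≤ M) (hc : ∀ i, ‖c i‖ ≤ M) : ‖∑ i, c i • Q i‖ ≤ M := by
  rcases hM.eq_or_lt with h0 | h0
  · have : ∀ i, c i = 0 := fun i => norm_le_zero_iff.1 (h0 ▸ hc i)
    simp [this, ← h0]
  · have h1 : ∀ i, ∃ u v : ℂ, ‖u‖ = 1 ∧ ‖v‖ = 1 ∧ 2 * (c i / M) = u + v := by
      intro i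
      apply unimod
      rw [norm_div, Complex.norm_real, Real.norm_eq_abs, abs_of_pos h0, div_le_one h0]
      exact hc i
    choose u v hu hv huv using h1
    have hMc : (M : ℂ) ≠ 0 := by exact_mod_cast h0.ne'
    have e : ∑ i, c i • Q i = ((M / 2 : ℝ) : ℂ) • (∑ i, u i • Q i + ∑ i, v i • Q i) := by
      rw [← Finset.sum_add_distrib, Finset.smul_sum]
      refine Finset.sum_congr rfl fun i _ => ?_
      rw [← add_smul, ← huv, smul_smul]
      congr 1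
      push_cast
      field_simp
    rw [e, norm_smul, Complex.norm_real, Real.norm_eq_abs, abs_of_pos (by positivity)]
    calc M / 2 * ‖∑ i, u i • Q i + ∑ i, v i • Q i‖ ≤ M / 2 * (1 + 1) :=
          mul_le_mul_of_nonneg_left ((norm_add_le _ _).trans
            (add_le_add (hQ.norm_le u hu) (hQ.norm_le v hv))) (by positivity)
      _ = M := by ring

theorem Res.normal {ι : Type*} [Fintype ι] {Q : ι → A} (hQ : Res Q) (c : ι → ℂ) :
    IsStarNormal (∑ i, c i • Q i) := by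
  constructor
  show star (∑ i, c i • Q i) * (∑ i, c i • Q i) = (∑ i, c i • Q i) * star (∑ i, c i • Q i)
  rw [hQ.star_sum, hQ.mul, hQ.mul]
  exact Finset.sum_congr rfl fun i _ => by rw [mul_comm]

theorem Res.conn {ι : Type*} [Fintype ι] {Q : ι → A} (hQ : Res Q) (c d : ι → ℂ) (M : ℝ)
    (hM : 0 ≤ M) (h : ∀ i, ‖c i - d i‖ ≤ M) : Conn M (∑ i, c i • Q i) (∑ i, d i • Q i) := by
  refine ⟨fun t => ∑ i, (((1 - t : ℝ) : ℂ) * c i + (t : ℂ) * d i) • Q i, ?_, ?_,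
    fun t _ => hQ.normal _, fun s _ t _ => ?_⟩
  · simp
  · simp
  · show ‖∑ i, (((1 - s : ℝ) : ℂ) * c i + (s : ℂ) * d i) • Q i -
      ∑ i, (((1 - t : ℝ) : ℂ) * c i + (t : ℂ) * d i) • Q i‖ ≤ _
    have e : ∑ i, (((1 - s : ℝ) : ℂ) * c i + (s : ℂ) * d i) • Q i -
      ∑ i, (((1 - t : ℝ) : ℂ) * c i + (t : ℂ) * d i) • Q i =
        ((t - s : ℝ) : ℂ) • ∑ i, (c i - d i) • Q i := by
      rw [← Finset.sum_sub_distrib, Finset.smul_sum]
      refine Finset.sum_congr rfl fun i _ => ?_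
      rw [← sub_smul, smul_smul]
      congr 1
      push_cast
      ring
    rw [e, norm_smul, Complex.norm_real, Real.norm_eq_abs, abs_sub_comm t s, mul_comm]
    exact mul_le_mul_of_nonneg_right (hQ.norm_sum_le _ M hM h) (abs_nonneg _)

end Pool.Agent.X62.NP
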