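import Mathlib

set_option autoImplicit false

/-! Clusters of a finite set of complex numbers. -/

namespace Pool.Agent.X62.NP

open Finset

/-- Two different points are adjacent if the floors of both coordinates differ by less than `R`. -/
def Gr (S : Finset ℂ) (R : ℕ) : SimpleGraph S where
  Adj z w := z ≠ w ∧ |⌊z.1.re⌋ - ⌊w.1.re⌋| < (R : ℤ) ∧ |⌊z.1.im⌋ - ⌊w.1.im⌋| < (R : ℤ)
  symm := ⟨fun z w h => ⟨h.1.symm, by rw [abs_sub_comm]; exact h.2.1,
    by rw [abs_sub_comm]; exact h.2.2⟩⟩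
  loopless := ⟨fun z h => h.1 rfl⟩

theorem floor_diff (a b : ℝ) (R : ℕ) (h : |⌊a⌋ - ⌊b⌋| < (R : ℤ)) : |a - b| ≤ R + 1 := by
  have h1 := Int.floor_le a
  have h2 := Int.lt_floor_add_one a
  have h3 := Int.floor_le b
  have h4 := Int.lt_floor_add_one b
  have h5 : |((⌊a⌋ - ⌊b⌋ : ℤ) : ℝ)| < R := by exact_mod_cast h
  push_cast at h5
  have h6 := abs_lt.1 h5
  exact abs_le.2 ⟨by linarith [h6.1], by linarith [h6.2]⟩

theorem walk_le (S : Finset ℂ) (R : ℕ) (u v : S) (p : (Gr S R).Walk u v) :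
    |u.1.re - v.1.re| ≤ (R + 1) * p.length ∧ |u.1.im - v.1.im| ≤ (R + 1) * p.length := by
  induction p with
  | nil => simp
  | @cons a b c h p ih =>
    have h1 := floor_diff _ _ _ h.2.1
    have h2 := floor_diff _ _ _ h.2.2
    rw [SimpleGraph.Walk.length_cons]
    push_cast
    constructor
    · calc |a.1.re - c.1.re| ≤ |a.1.re - b.1.re| + |b.1.re - c.1.re| := abs_sub_le _ _ _
        _ ≤ (R + 1) + (R + 1) * p.length := add_le_add h1 ih.1
        _ = (R + 1) * (p.length + 1) := by ring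
    · calc |a.1.im - c.1.im| ≤ |a.1.im - b.1.im| + |b.1.im - c.1.im| := abs_sub_le _ _ _
        _ ≤ (R + 1) + (R + 1) * p.length := add_le_add h2 ih.2
        _ = (R + 1) * (p.length + 1) := by ring

theorem clusters (S : Finset ℂ) (R : ℕ) : ∃ lab : ℂ → ℤ,
    (∀ z ∈ S, ∀ w ∈ S, lab z = lab w → ‖z - w‖ ≤ 2 * (R + 1) * S.card) ∧
    ∀ z ∈ S, ∀ w ∈ S, lab z ≠ lab w →
      (R : ℤ) ≤ |⌊z.re⌋ - ⌊w.re⌋| ∨ (R : ℤ) ≤ |⌊z.im⌋ - ⌊w.im⌋| := by
  classical
  obtain ⟨f, hf⟩ := exists_injective_nat (Gr S R).ConnectedComponent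
  let lab : ℂ → ℤ := fun z => if h : z ∈ S then (f ((Gr S R).connectedComponentMk ⟨z, h⟩) : ℤ) else 0
  have hlab : ∀ z (h : z ∈ S), lab z = (f ((Gr S R).connectedComponentMk ⟨z, h⟩) : ℤ) := by
    intro z h
    simp only [lab, dif_pos h]
  refine ⟨lab, ?_, ?_⟩
  · intro z hz w hw hwl
    rw [hlab w hw, hlab z hz] at hwl
    have h1 : (Gr S R).connectedComponentMk ⟨z, hz⟩ = (Gr S R).connectedComponentMk ⟨w, hw⟩ := by
      apply hf
      exact_mod_cast hwl
    have h2 : (Gr S R).Reachable ⟨z, hz⟩ ⟨w, hw⟩ := SimpleGraph.ConnectedComponent.eq.1 h1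
    obtain ⟨p⟩ := h2
    have h3 := (p.toPath.2).length_lt
    have h4 := walk_le S R _ _ p.toPath.1
    have h5 : ((p.toPath.1.length : ℕ) : ℝ) ≤ S.card := by
      have : p.toPath.1.length ≤ S.card := by
        have := h3.le
        rwa [Fintype.card_coe] at this
      exact_mod_cast this
    have h6 := Complex.norm_le_abs_re_add_abs_im (z - w)
    rw [Complex.sub_re, Complex.sub_im] at h6
    have h7 : ((R : ℝ) + 1) * (p.toPath.1.length : ℕ) ≤ (R + 1) * S.card :=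
      mul_le_mul_of_nonneg_left h5 (by positivity)
    have h8 : |z.re - w.re| ≤ (R + 1) * S.card := h4.1.trans h7
    have h9 : |z.im - w.im| ≤ (R + 1) * S.card := h4.2.trans h7
    linarith
  · intro z hz w hw hne
    by_contra hcon
    push Not at hcon
    apply hne
    rw [hlab z hz, hlab w hw]
    congr 2
    by_cases hzw : z = w
    · subst hzw
      rfl
    · apply SimpleGraph.ConnectedComponent.sound
      apply SimpleGraph.Adj.reachable
      exact ⟨fun h => hzw (congrArg Subtype.val h), hcon.1, hcon.2⟩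

theorem floor_far (a b : ℝ) (R : ℕ) (h : (R : ℤ) ≤ |⌊a⌋ - ⌊b⌋|) : (R : ℝ) - 1 ≤ |a - b| := by
  have h1 := Int.floor_le a
  have h2 := Int.lt_floor_add_one a
  have h3 := Int.floor_le b
  have h4 := Int.lt_floor_add_one b
  have h5 : (R : ℝ) ≤ |((⌊a⌋ - ⌊b⌋ : ℤ) : ℝ)| := by exact_mod_cast h
  push_cast at h5
  rcases le_abs.1 h5 with h6 | h6
  · exact le_abs.2 (Or.inl (by linarith))
  · exact le_abs.2 (Or.inr (by linarith))

/-- Every finite set splits into clusters of diameter `O(R * card)` with mutual distances at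
least `R`. -/
theorem clusters' (S : Finset ℂ) (R : ℝ) (hR : 0 ≤ R) : ∃ lab : ℂ → ℤ,
    (∀ z ∈ S, ∀ w ∈ S, lab z = lab w → ‖z - w‖ ≤ 2 * (R + 3) * S.card) ∧
    ∀ z ∈ S, ∀ w ∈ S, lab z ≠ lab w → R ≤ ‖z - w‖ := by
  obtain ⟨lab, h1, h2⟩ := clusters S (⌈R⌉₊ + 1)
  have hc := Nat.ceil_lt_add_one hR
  have hc' := Nat.le_ceil R
  refine ⟨lab, fun z hz w hw h => (h1 z hz w hw h).trans ?_, fun z hz w hw h => ?_⟩
  · push_cast
    have : (0 : ℝ) ≤ S.card := by positivity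
    nlinarith
  · rcases h2 z hz w hw h with h3 | h3
    · have h4 := floor_far _ _ _ h3
      have h5 := Complex.abs_re_le_norm (z - w)
      rw [Complex.sub_re] at h5
      push_cast at h4
      linarith
    · have h4 := floor_far _ _ _ h3
      have h5 := Complex.abs_im_le_norm (z - w)
      rw [Complex.sub_im] at h5
      push_cast at h4
      linarith

theorem far_floor (z w : ℂ) (R : ℕ) (h : 2 * ((R : ℝ) + 1) ≤ ‖z - w‖) :
    (R : ℤ) ≤ |⌊z.re⌋ - ⌊w.re⌋| ∨ (R : ℤ) ≤ |⌊z.im⌋ - ⌊w.im⌋| := by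
  by_contra hcon
  push Not at hcon
  have h1 := floor_diff _ _ _ hcon.1
  have h2 := floor_diff _ _ _ hcon.2
  have key : ∀ a b : ℝ, |⌊a⌋ - ⌊b⌋| < (R : ℤ) → |a - b| < R + 1 := by
    intro a b hab
    have h1 := Int.floor_le a
    have h2 := Int.lt_floor_add_one a
    have h3 := Int.floor_le b
    have h4 := Int.lt_floor_add_one b
    have h5 : |((⌊a⌋ - ⌊b⌋ : ℤ) : ℝ)| < R := by exact_mod_cast hab
    push_cast at h5
    have h6 := abs_lt.1 h5
    exact abs_lt.2 ⟨by linarith [h6.1], by linarith [h6.2]⟩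
  have h3 := key _ _ hcon.1
  have h4 := key _ _ hcon.2
  have h6 := Complex.norm_le_abs_re_add_abs_im (z - w)
  rw [Complex.sub_re, Complex.sub_im] at h6
  linarith

end Pool.Agent.X62.NP
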