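import Pool.Agent.X62.NP.Main
import Pool.Agent.H173R2.HWD

set_option autoImplicit false

/-! The main theorem for normal matrices. -/

namespace Pool.Agent.X62.NP

open Finset Matrix
open scoped Matrix.Norms.L2Operator

theorem spectral {n : ℕ} (X : Matrix (Fin n) (Fin n) ℂ) (hX : Xᴴ * X = X * Xᴴ) :
    ∃ (Q : Fin n → Matrix (Fin n) (Fin n) ℂ) (α : Fin n → ℂ), Res Q ∧ (∀ i, Q i ≠ 0) ∧
      X = ∑ i, α i • Q i ∧ ∀ i, α i ∈ spectrum ℂ X := by
  obtain ⟨V, hV, α, hα⟩ := Pool.Agent.H173R2.HW.normal_diag X hX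
  have hV1 : Vᴴ * V = 1 := hV
  have hV2 : V * Vᴴ = 1 := Pool.Agent.H173R2.HW.Us_right hV
  set Q : Fin n → Matrix (Fin n) (Fin n) ℂ := fun i => V * Matrix.single i i 1 * Vᴴ with hQ
  have hmul : ∀ i j, Q i * Q j = V * (Matrix.single i i 1 * Matrix.single j j 1) * Vᴴ := by
    intro i j
    calc Q i * Q j = V * Matrix.single i i 1 * (Vᴴ * V) * Matrix.single j j 1 * Vᴴ := by
          simp only [hQ, Matrix.mul_assoc]
      _ = _ := by rw [hV1, Matrix.mul_one]; simp only [Matrix.mul_assoc]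
  have hsum : ∀ c : Fin n → ℂ, ∑ i, c i • Q i = V * diagonal c * Vᴴ := by
    intro c
    have hd : diagonal c = ∑ i, c i • Matrix.single i i (1 : ℂ) := by
      ext a b
      rw [Matrix.sum_apply]
      simp only [Matrix.smul_apply, Matrix.single_apply, diagonal_apply, smul_eq_mul, mul_ite,
        mul_one, mul_zero]
      by_cases hab : a = b
      · subst hab
        simp
      · rw [if_neg hab]
        symm
        refine sum_eq_zero fun i _ => ?_
        rw [if_neg]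
        rintro ⟨h1, h2⟩
        exact hab (h1.symm.trans h2)
    rw [hd, Matrix.mul_sum, Matrix.sum_mul]
    refine sum_congr rfl fun i _ => ?_
    rw [Matrix.mul_smul, Matrix.smul_mul]
  have hidem : ∀ i, Q i * Q i = Q i := by
    intro i
    rw [hmul, Matrix.single_mul_single_same, mul_one]
  have horth : ∀ i j, i ≠ j → Q i * Q j = 0 := by
    intro i j hij
    rw [hmul, Matrix.single_mul_single_of_ne _ _ _ _ hij, Matrix.mul_zero, Matrix.zero_mul]
  have hne : ∀ i, Q i ≠ 0 := by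
    intro i h0
    have h1 : Vᴴ * Q i * V = Matrix.single i i 1 := by
      calc Vᴴ * Q i * V = (Vᴴ * V) * Matrix.single i i 1 * (Vᴴ * V) := by
            simp only [hQ, Matrix.mul_assoc]
        _ = _ := by rw [hV1, Matrix.one_mul, Matrix.mul_one]
    rw [h0, Matrix.mul_zero, Matrix.zero_mul] at h1
    have h2 := congrFun (congrFun h1 i) i
    simp at h2
  have hres : Res Q := by
    refine ⟨fun i => ?_, hidem, horth, ?_⟩
    · show (Q i)ᴴ = Q i
      simp only [hQ, conjTranspose_mul, conjTranspose_conjTranspose, conjTranspose_single,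
        star_one, Matrix.mul_assoc]
    · have := hsum fun _ => 1
      simp only [one_smul] at this
      rw [this, diagonal_one, Matrix.mul_one, hV2]
  have hX' : X = ∑ i, α i • Q i := by rw [hsum, hα]
  refine ⟨Q, α, hres, hne, hX', fun i => ?_⟩
  intro hu
  rw [spectrum.mem_resolventSet_iff, Algebra.algebraMap_eq_smul_one] at hu
  obtain ⟨u, hu⟩ := hu
  have h1 : (α i • (1 : Matrix (Fin n) (Fin n) ℂ) - X) * Q i = 0 := by
    have h2 : X * Q i = α i • Q i := by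
      conv_lhs => rw [hX']
      exact hres.sum_mul α i
    rw [Matrix.sub_mul, h2, Matrix.smul_mul, Matrix.one_mul, sub_self]
  apply hne i
  calc Q i = ((u⁻¹ : (Matrix (Fin n) (Fin n) ℂ)ˣ) : Matrix (Fin n) (Fin n) ℂ) *
        ((u : Matrix (Fin n) (Fin n) ℂ) * Q i) := by
        rw [← Matrix.mul_assoc, Units.inv_mul, Matrix.one_mul]
    _ = 0 := by rw [hu, h1, Matrix.mul_zero]

theorem main_unit : ∃ C R : ℝ, 0 < C ∧ 0 < R ∧ ∀ (n : ℕ) (X Y : Matrix (Fin n) (Fin n) ℂ),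
    Xᴴ * X = X * Xᴴ → Yᴴ * Y = Y * Yᴴ → ‖X - Y‖ ≤ 1 → ∀ (D : ℝ) (lab : ℂ → ℤ), 0 ≤ D →
    (∀ z ∈ spectrum ℂ X, ∀ w ∈ spectrum ℂ X, lab z = lab w → ‖z - w‖ ≤ D) →
    (∀ z ∈ spectrum ℂ X, ∀ w ∈ spectrum ℂ X, lab z ≠ lab w → R ≤ ‖z - w‖) →
    Conn (C * (1 + D)) X Y := by
  obtain ⟨C, R, hC, hR, h⟩ := conn
  refine ⟨C + 1, R + 1, by linarith, by linarith, ?_⟩
  intro n X Y hX hY hXY D lab hD hin hout
  obtain ⟨Q, α, hQ, -, hXs, hα⟩ := spectral X hX
  obtain ⟨P, β, hP, hPne, hYs, -⟩ := spectral Y hY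
  have h1 := h (Matrix (Fin n) (Fin n) ℂ) (Fin n) (Fin n) Q P hQ hP hPne α β
    (by rw [← hXs, ← hYs]; exact hXY) D lab hD (fun i i' => hin _ (hα i) _ (hα i'))
    (fun i i' hi => by
      have := hout _ (hα i) _ (hα i') hi
      linarith)
  rw [← hXs, ← hYs] at h1
  exact h1.mono (by nlinarith)

theorem main : ∃ C R : ℝ, 0 < C ∧ 0 < R ∧ ∀ (n : ℕ) (X Y : Matrix (Fin n) (Fin n) ℂ),
    Xᴴ * X = X * Xᴴ → Yᴴ * Y = Y * Yᴴ → ∀ (D : ℝ) (lab : ℂ → ℤ), 0 ≤ D →
    (∀ z ∈ spectrum ℂ X, ∀ w ∈ spectrum ℂ X, lab z = lab w → ‖z - w‖ ≤ D) →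
    (∀ z ∈ spectrum ℂ X, ∀ w ∈ spectrum ℂ X, lab z ≠ lab w → R * ‖X - Y‖ ≤ ‖z - w‖) →
    Conn (C * (‖X - Y‖ + D)) X Y := by
  obtain ⟨C, R, hC, hR, h⟩ := main_unit
  refine ⟨C, R, hC, hR, ?_⟩
  intro n X Y hX hY D lab hD hin hout
  set M := ‖X - Y‖ with hM
  rcases (norm_nonneg (X - Y)).eq_or_lt with h0 | h0
  · have : X = Y := sub_eq_zero.1 (norm_eq_zero.1 h0.symm)
    subst this
    refine ⟨fun _ => X, rfl, rfl, fun t _ => ⟨hX⟩, fun s _ t _ => ?_⟩
    simp only [sub_self, norm_zero]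
    positivity
  · have hMc : (M : ℂ) ≠ 0 := by exact_mod_cast h0.ne'
    have hMi : ((M⁻¹ : ℝ) : ℂ) = (M : ℂ)⁻¹ := by push_cast; rfl
    have hns : ∀ Z : Matrix (Fin n) (Fin n) ℂ, Zᴴ * Z = Z * Zᴴ →
        (((M⁻¹ : ℝ) : ℂ) • Z)ᴴ * (((M⁻¹ : ℝ) : ℂ) • Z) =
          (((M⁻¹ : ℝ) : ℂ) • Z) * (((M⁻¹ : ℝ) : ℂ) • Z)ᴴ := by
      intro Z hZ
      rw [conjTranspose_smul, Matrix.smul_mul, Matrix.mul_smul, Matrix.smul_mul, Matrix.mul_smul,
        hZ, smul_comm]
    have hn : ‖((M⁻¹ : ℝ) : ℂ) • X - ((M⁻¹ : ℝ) : ℂ) • Y‖ ≤ 1 := by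
      rw [← smul_sub, norm_smul, Complex.norm_real, Real.norm_eq_abs, abs_of_pos (inv_pos.2 h0)]
      exact (inv_mul_cancel₀ h0.ne').le
    have hsp : ∀ z ∈ spectrum ℂ (((M⁻¹ : ℝ) : ℂ) • X), (M : ℂ) * z ∈ spectrum ℂ X := by
      intro z hz
      have hu : ((M : ℂ)) ≠ 0 := hMc
      have h1 := (spectrum.smul_mem_smul_iff (a := ((M⁻¹ : ℝ) : ℂ) • X) (s := z)
        (r := Units.mk0 (M : ℂ) hu)).2 hz
      have e1 : (Units.mk0 (M : ℂ) hu) • (((M⁻¹ : ℝ) : ℂ) • X) = X := by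
        show (M : ℂ) • (((M⁻¹ : ℝ) : ℂ) • X) = X
        rw [smul_smul, hMi, mul_inv_cancel₀ hMc, one_smul]
      rw [e1] at h1
      exact h1
    have h1 := h n (((M⁻¹ : ℝ) : ℂ) • X) (((M⁻¹ : ℝ) : ℂ) • Y) (hns X hX) (hns Y hY) hn (D / M)
      (fun z => lab ((M : ℂ) * z)) (by positivity) (fun z hz w hw hl => by
        have h2 := hin _ (hsp z hz) _ (hsp w hw) hl
        rw [← mul_sub, norm_mul, Complex.norm_real, Real.norm_eq_abs, abs_of_pos h0] at h2
        rw [le_div_iff₀ h0]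
        linarith) (fun z hz w hw hl => by
        have h2 := hout _ (hsp z hz) _ (hsp w hw) hl
        rw [← mul_sub, norm_mul, Complex.norm_real, Real.norm_eq_abs, abs_of_pos h0,
          mul_comm R M] at h2
        exact le_of_mul_le_mul_left h2 h0)
    have h2 := h1.smul M
    have e : ∀ Z : Matrix (Fin n) (Fin n) ℂ, (M : ℂ) • (((M⁻¹ : ℝ) : ℂ) • Z) = Z := by
      intro Z
      rw [smul_smul, hMi, mul_inv_cancel₀ hMc, one_smul]
    rw [e, e] at h2
    refine h2.mono (le_of_eq ?_)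
    have hM0 : 0 < M := h0
    have hM1 : M ≠ 0 := hM0.ne'
    rw [abs_of_pos hM0]
    clear_value M
    field_simp

/-- The version with the number of distinct eigenvalues. -/
theorem main_card : ∃ C : ℝ, 0 < C ∧ ∀ (n : ℕ) (X Y : Matrix (Fin n) (Fin n) ℂ),
    Xᴴ * X = X * Xᴴ → Yᴴ * Y = Y * Yᴴ →
    Conn (C * (spectrum ℂ X).ncard * ‖X - Y‖) X Y := by
  obtain ⟨C, R, hC, hR, h⟩ := main
  refine ⟨C * (2 * (R + 3) + 1), by positivity, ?_⟩
  intro n X Y hX hY
  set M := ‖X - Y‖ with hM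
  rcases Nat.eq_zero_or_pos n with hn | hn
  · subst hn
    have : X = Y := Subsingleton.elim _ _
    subst this
    refine ⟨fun _ => X, rfl, rfl, fun t _ => ⟨hX⟩, fun s _ t _ => ?_⟩
    simp only [sub_self, norm_zero]
    positivity
  rcases (norm_nonneg (X - Y)).eq_or_lt with h0 | h0
  · have : X = Y := sub_eq_zero.1 (norm_eq_zero.1 h0.symm)
    subst this
    refine ⟨fun _ => X, rfl, rfl, fun t _ => ⟨hX⟩, fun s _ t _ => ?_⟩
    simp only [sub_self, norm_zero]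
    positivity
  have hMc : (M : ℂ) ≠ 0 := by exact_mod_cast h0.ne'
  have hfin : (spectrum ℂ X).Finite := Matrix.finite_spectrum X
  have hne : (spectrum ℂ X).Nonempty := by
    obtain ⟨Q, α, -, -, -, hα⟩ := spectral X hX
    exact ⟨_, hα ⟨0, hn⟩⟩
  have hd : (1 : ℝ) ≤ (spectrum ℂ X).ncard := by
    exact_mod_cast (Set.ncard_pos hfin).2 hne
  -- clusters of the scaled spectrum
  set S : Finset ℂ := hfin.toFinset.image (fun z => z / M) with hS
  have hSc : (S.card : ℝ) ≤ (spectrum ℂ X).ncard := by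
    have : S.card ≤ (spectrum ℂ X).ncard := by
      rw [Set.ncard_eq_toFinset_card _ hfin]
      exact Finset.card_image_le
    exact_mod_cast this
  have hmem : ∀ z ∈ spectrum ℂ X, z / M ∈ S := fun z hz =>
    mem_image_of_mem _ (hfin.mem_toFinset.2 hz)
  obtain ⟨lab, h1, h2⟩ := clusters' S R hR.le
  have key := h n X Y hX hY (2 * (R + 3) * (spectrum ℂ X).ncard * M) (fun z => lab (z / M))
    (by positivity) (fun z hz w hw hl => by
      have h3 := h1 _ (hmem z hz) _ (hmem w hw) hl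
      rw [← sub_div, norm_div, Complex.norm_real, Real.norm_eq_abs, abs_of_pos h0,
        div_le_iff₀ h0] at h3
      refine h3.trans ?_
      have : 2 * (R + 3) * (S.card : ℝ) ≤ 2 * (R + 3) * (spectrum ℂ X).ncard :=
        mul_le_mul_of_nonneg_left hSc (by positivity)
      exact mul_le_mul_of_nonneg_right this h0.le) (fun z hz w hw hl => by
      have h3 := h2 _ (hmem z hz) _ (hmem w hw) hl
      rw [← sub_div, norm_div, Complex.norm_real, Real.norm_eq_abs, abs_of_pos h0,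
        le_div_iff₀ h0] at h3
      exact h3)
  refine key.mono ?_
  have h4 : M ≤ (spectrum ℂ X).ncard * M := by nlinarith
  have h5 : M + 2 * (R + 3) * (spectrum ℂ X).ncard * M ≤
      (2 * (R + 3) + 1) * (spectrum ℂ X).ncard * M := by
    nlinarith
  calc C * (M + 2 * (R + 3) * (spectrum ℂ X).ncard * M)
      ≤ C * ((2 * (R + 3) + 1) * (spectrum ℂ X).ncard * M) := mul_le_mul_of_nonneg_left h5 hC.le
    _ = C * (2 * (R + 3) + 1) * (spectrum ℂ X).ncard * M := by ring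

theorem ncard_le (n : ℕ) (X : Matrix (Fin n) (Fin n) ℂ) : (spectrum ℂ X).ncard ≤ n := by
  classical
  have h1 : spectrum ℂ X ⊆ (X.charpoly.roots.toFinset : Set ℂ) := by
    intro z hz
    rw [Finset.mem_coe, Multiset.mem_toFinset, Polynomial.mem_roots X.charpoly_monic.ne_zero]
    exact Matrix.mem_spectrum_iff_isRoot_charpoly.1 hz
  calc (spectrum ℂ X).ncard ≤ (X.charpoly.roots.toFinset : Set ℂ).ncard :=
        Set.ncard_le_ncard h1 (Finset.finite_toSet _)
    _ = X.charpoly.roots.toFinset.card := Set.ncard_coe_finset _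
    _ ≤ X.charpoly.roots.card := Multiset.toFinset_card_le _
    _ ≤ X.charpoly.natDegree := Polynomial.card_roots' _
    _ = n := by rw [Matrix.charpoly_natDegree_eq_dim, Fintype.card_fin]

end Pool.Agent.X62.NP
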