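import Mathlib

set_option autoImplicit false

/-! Kernels on `[0, 1]` with small `L¹` norm and Fourier coefficients `1 / m` for all large `|m|`. -/

namespace Pool.Agent.X62.NP

open Finset MeasureTheory intervalIntegral Real

/-- The remainder of the sine series of the sawtooth. -/
noncomputable def g (N : ℕ) (t : ℝ) : ℝ :=
  π * (t - 1 / 2) + ∑ k ∈ range N, sin (2 * π * (k + 1) * t) / (k + 1)

theorem g_cont (N : ℕ) : Continuous (g N) := by
  unfold g
  fun_prop

theorem g_succ (N : ℕ) (t : ℝ) : g (N + 1) t = g N t + sin (2 * π * (N + 1) * t) / (N + 1) := by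
  unfold g
  rw [sum_range_succ, add_assoc]

theorem int_exp (m : ℤ) (hm : m ≠ 0) :
    ∫ t in (0 : ℝ)..1, Complex.exp (2 * π * Complex.I * m * t) = 0 := by
  have hc : (2 * π * Complex.I * m : ℂ) ≠ 0 := by
    have h1 : (m : ℂ) ≠ 0 := by exact_mod_cast hm
    have h2 : (π : ℂ) ≠ 0 := by exact_mod_cast Real.pi_ne_zero
    simp [h1, h2, Complex.I_ne_zero]
  rw [integral_exp_mul_complex hc]
  have h1 : Complex.exp (2 * π * Complex.I * m * (1 : ℝ)) = 1 := by
    rw [Complex.exp_eq_one_iff]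
    exact ⟨m, by push_cast; ring⟩
  rw [h1]
  simp

theorem int_lin_exp (m : ℤ) (hm : m ≠ 0) :
    ∫ t in (0 : ℝ)..1, ((t : ℂ) - 1 / 2) * Complex.exp (2 * π * Complex.I * m * t) =
      1 / (2 * π * Complex.I * m) := by
  have hc : (2 * π * Complex.I * m : ℂ) ≠ 0 := by
    have h1 : (m : ℂ) ≠ 0 := by exact_mod_cast hm
    have h2 : (π : ℂ) ≠ 0 := by exact_mod_cast Real.pi_ne_zero
    simp [h1, h2, Complex.I_ne_zero]
  set c : ℂ := 2 * π * Complex.I * m with hcd
  have hexp1 : Complex.exp c = 1 := by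
    rw [Complex.exp_eq_one_iff]
    exact ⟨m, by rw [hcd]; ring⟩
  have hF : ∀ x : ℝ, HasDerivAt (fun t : ℝ => ((t : ℂ) - 1 / 2) * (Complex.exp (c * t) / c) -
      Complex.exp (c * t) / c ^ 2) (((x : ℂ) - 1 / 2) * Complex.exp (c * x)) x := by
    intro x
    have h1 : HasDerivAt (fun t : ℝ => (t : ℂ)) 1 x := Complex.ofRealCLM.hasDerivAt
    have h2 : HasDerivAt (fun t : ℝ => Complex.exp (c * t)) (Complex.exp (c * x) * (c * 1)) x :=
      (h1.const_mul c).cexp
    have h3 := ((h1.sub_const (1 / 2)).mul (h2.div_const c)).sub (h2.div_const (c ^ 2))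
    have e : ((x : ℂ) - 1 / 2) * Complex.exp (c * x) =
        1 * (Complex.exp (c * x) / c) + ((x : ℂ) - 1 / 2) * (Complex.exp (c * x) * (c * 1) / c) -
          Complex.exp (c * x) * (c * 1) / c ^ 2 := by
      field_simp
      ring
    rw [e]
    exact h3
  rw [integral_eq_sub_of_hasDerivAt (fun x _ => hF x) (by
    apply Continuous.intervalIntegrable
    fun_prop)]
  simp only [Complex.ofReal_one, mul_one, Complex.ofReal_zero, mul_zero, Complex.exp_zero, hexp1]
  field_simp
  ring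

/-- the exponential `e (m t)` -/
noncomputable def e (m : ℤ) (t : ℝ) : ℂ := Complex.exp (2 * π * Complex.I * m * t)

theorem e_cont (m : ℤ) : Continuous (e m) := by
  unfold e
  fun_prop

theorem e_mul (m k : ℤ) (t : ℝ) : e m t * e k t = e (m + k) t := by
  unfold e
  rw [← Complex.exp_add]
  congr 1
  push_cast
  ring

theorem int_e (m : ℤ) : ∫ t in (0 : ℝ)..1, e m t = if m = 0 then 1 else 0 := by
  split_ifs with h
  · subst h
    simp [e]
  · exact int_exp m h

theorem sin_e (N : ℕ) (t : ℝ) : 2 * Complex.I * ((sin (2 * π * (N + 1) * t) : ℝ) : ℂ) =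
    e (N + 1 : ℕ) t - e (-((N + 1 : ℕ) : ℤ)) t := by
  rw [Complex.ofReal_sin, Complex.sin]
  unfold e
  have h1 : (2 * π * Complex.I * (((N + 1 : ℕ) : ℤ) : ℂ) * (t : ℂ) : ℂ) =
      ((2 * π * (N + 1) * t : ℝ) : ℂ) * Complex.I := by
    push_cast
    ring
  have h2 : (2 * π * Complex.I * ((-((N + 1 : ℕ) : ℤ) : ℤ) : ℂ) * (t : ℂ) : ℂ) =
      -((2 * π * (N + 1) * t : ℝ) : ℂ) * Complex.I := by
    push_cast
    ring
  rw [h1, h2]
  have h3 := Complex.I_mul_I
  linear_combination (Complex.exp (-((2 * π * (N + 1) * t : ℝ) : ℂ) * Complex.I) -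
    Complex.exp (((2 * π * (N + 1) * t : ℝ) : ℂ) * Complex.I)) * h3

theorem coef (N : ℕ) (m : ℤ) :
    ∫ t in (0 : ℝ)..1, (2 * Complex.I * (g N t : ℂ)) * e m t =
      if (N : ℤ) < |m| then 1 / (m : ℂ) else 0 := by
  induction N with
  | zero =>
    have h0 : ∀ t : ℝ, (2 * Complex.I * (g 0 t : ℂ)) * e m t =
        (2 * π * Complex.I) * (((t : ℂ) - 1 / 2) * Complex.exp (2 * π * Complex.I * m * t)) := by
      intro t
      simp only [g, e, range_zero, sum_empty, add_zero]
      push_cast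
      ring
    simp only [h0]
    rw [intervalIntegral.integral_const_mul]
    by_cases hm : m = 0
    · subst hm
      have h1 : ∫ t in (0 : ℝ)..1, ((t : ℂ) - 1 / 2) *
          Complex.exp (2 * π * Complex.I * ((0 : ℤ) : ℂ) * t) = 0 := by
        have h2 : ∀ t : ℝ, ((t : ℂ) - 1 / 2) *
          Complex.exp (2 * π * Complex.I * ((0 : ℤ) : ℂ) * t) = ((t - 1 / 2 : ℝ) : ℂ) := by
          intro t
          simp
        simp only [h2]
        rw [intervalIntegral.integral_ofReal]
        norm_num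
      rw [h1]
      simp
    · rw [int_lin_exp m hm, if_pos (by simpa using abs_pos.2 hm)]
      have h1 : (m : ℂ) ≠ 0 := by exact_mod_cast hm
      have h2 : (π : ℂ) ≠ 0 := by exact_mod_cast Real.pi_ne_zero
      field_simp
  | succ N ih =>
    have hM : ((N : ℂ) + 1) ≠ 0 := by exact_mod_cast Nat.succ_ne_zero N
    have h0 : ∀ t : ℝ, (2 * Complex.I * (g (N + 1) t : ℂ)) * e m t =
        (2 * Complex.I * (g N t : ℂ)) * e m t +
          (1 / ((N : ℂ) + 1)) * (e (m + (N + 1 : ℕ)) t - e (m + (-((N + 1 : ℕ) : ℤ))) t) := by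
      intro t
      rw [g_succ, ← e_mul, ← e_mul]
      have h1 := sin_e N t
      push_cast at h1 ⊢
      have h2 : (2 * Complex.I * ((g N t : ℂ) + Complex.sin (2 * π * (N + 1) * t) / (N + 1))) * e m t =
          2 * Complex.I * (g N t : ℂ) * e m t +
            (1 / ((N : ℂ) + 1)) * ((2 * Complex.I * Complex.sin (2 * π * (N + 1) * t)) * e m t) := by
        field_simp
      rw [h2, h1]
      ring
    simp only [h0]
    have hc1 : Continuous fun t : ℝ => (2 * Complex.I * (g N t : ℂ)) * e m t :=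
      (continuous_const.mul (Complex.continuous_ofReal.comp (g_cont N))).mul (e_cont m)
    have hc2 := e_cont (m + (N + 1 : ℕ))
    have hc3 := e_cont (m + (-((N + 1 : ℕ) : ℤ)))
    have hc4 : Continuous fun t : ℝ => (1 / ((N : ℂ) + 1)) *
        (e (m + (N + 1 : ℕ)) t - e (m + (-((N + 1 : ℕ) : ℤ))) t) :=
      continuous_const.mul (hc2.sub hc3)
    rw [intervalIntegral.integral_add (hc1.intervalIntegrable _ _)
      (hc4.intervalIntegrable _ _),
      intervalIntegral.integral_const_mul,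
      intervalIntegral.integral_sub (hc2.intervalIntegrable _ _) (hc3.intervalIntegrable _ _),
      ih, int_e, int_e]
    have hMr : (0 : ℤ) ≤ (N : ℤ) := by positivity
    rcases lt_trichotomy |m| ((N + 1 : ℕ) : ℤ) with h | h | h
    · rw [if_neg (by push_cast at h; omega), if_neg, if_neg, if_neg (by omega)]
      · simp
      · intro h1
        have : m = ((N + 1 : ℕ) : ℤ) := by omega
        rw [this, abs_of_nonneg (by positivity)] at h
        omega
      · intro h1
        have : m = -((N + 1 : ℕ) : ℤ) := by omega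
        rw [this, abs_neg, abs_of_nonneg (by positivity)] at h
        omega
    · rw [if_pos (by push_cast at h; omega), if_neg (show ¬ ((N + 1 : ℕ) : ℤ) < |m| by omega)]
      rcases abs_eq (by positivity : (0 : ℤ) ≤ ((N + 1 : ℕ) : ℤ)) |>.1 h with h1 | h1
      · rw [if_neg (by omega), if_pos (by omega), h1]
        push_cast
        ring
      · rw [if_pos (by omega), if_neg (by omega), h1]
        push_cast
        field_simp
        ring
    · rw [if_pos (by push_cast at h; omega), if_neg, if_neg, if_pos h]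
      · simp
      · intro h1
        have : m = ((N + 1 : ℕ) : ℤ) := by omega
        rw [this, abs_of_nonneg (by positivity)] at h
        omega
      · intro h1
        have : m = -((N + 1 : ℕ) : ℤ) := by omega
        rw [this, abs_neg, abs_of_nonneg (by positivity)] at h
        omega

theorem int_g_sin (N : ℕ) :
    ∫ t in (0 : ℝ)..1, g N t * sin (2 * π * (N + 1) * t) = -(1 / (2 * (N + 1))) := by
  have h1 := coef N ((N + 1 : ℕ) : ℤ)
  have h2 := coef N (-((N + 1 : ℕ) : ℤ))
  have ha : |((N + 1 : ℕ) : ℤ)| = ((N + 1 : ℕ) : ℤ) := abs_of_nonneg (by positivity)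
  rw [ha, if_pos (by push_cast; omega)] at h1
  rw [abs_neg, ha, if_pos (by push_cast; omega)] at h2
  have hc (m : ℤ) : Continuous fun t : ℝ => (2 * Complex.I * (g N t : ℂ)) * e m t :=
    (continuous_const.mul (Complex.continuous_ofReal.comp (g_cont N))).mul (e_cont m)
  have h3 : ∫ t in (0 : ℝ)..1, ((2 * Complex.I * (g N t : ℂ)) * e ((N + 1 : ℕ) : ℤ) t -
      (2 * Complex.I * (g N t : ℂ)) * e (-((N + 1 : ℕ) : ℤ)) t) =
      1 / (((N + 1 : ℕ) : ℤ) : ℂ) - 1 / ((-((N + 1 : ℕ) : ℤ) : ℤ) : ℂ) := by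
    rw [intervalIntegral.integral_sub ((hc _).intervalIntegrable _ _)
      ((hc _).intervalIntegrable _ _), h1, h2]
  have h4 : ∀ t : ℝ, ((2 * Complex.I * (g N t : ℂ)) * e ((N + 1 : ℕ) : ℤ) t -
      (2 * Complex.I * (g N t : ℂ)) * e (-((N + 1 : ℕ) : ℤ)) t) =
      (-4 : ℂ) * ((g N t * sin (2 * π * (N + 1) * t) : ℝ) : ℂ) := by
    intro t
    rw [← mul_sub, ← sin_e N t]
    have h5 := Complex.I_mul_I
    rw [Complex.ofReal_mul]
    linear_combination (4 * (g N t : ℂ) * ((sin (2 * π * (N + 1) * t) : ℝ) : ℂ)) * h5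
  simp only [h4] at h3
  rw [intervalIntegral.integral_const_mul, intervalIntegral.integral_ofReal] at h3
  have hN : ((N : ℂ) + 1) ≠ 0 := by exact_mod_cast Nat.succ_ne_zero N
  have h6 : (((∫ t in (0 : ℝ)..1, g N t * sin (2 * π * (N + 1) * t)) : ℝ) : ℂ) =
      ((-(1 / (2 * (N + 1))) : ℝ) : ℂ) := by
    have h7 : (-4 : ℂ) * (((∫ t in (0 : ℝ)..1, g N t * sin (2 * π * (N + 1) * t)) : ℝ) : ℂ) =
        (-4 : ℂ) * ((-(1 / (2 * (N + 1))) : ℝ) : ℂ) := by
      rw [h3]
      push_cast
      field_simp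
      ring
    exact mul_left_cancel₀ (by norm_num) h7
  exact_mod_cast h6

theorem int_sin_sq (N : ℕ) : ∫ t in (0 : ℝ)..1, sin (2 * π * (N + 1) * t) ^ 2 = 1 / 2 := by
  have h1 : ∀ t : ℝ, sin (2 * π * (N + 1) * t) ^ 2 =
      1 / 2 - (1 / 2) * cos (2 * (2 * π * (N + 1)) * t) := by
    intro t
    have h := Real.cos_two_mul (2 * π * (N + 1) * t)
    have h' := Real.sin_sq_add_cos_sq (2 * π * (N + 1) * t)
    rw [show 2 * (2 * π * (N + 1)) * t = 2 * (2 * π * (N + 1) * t) by ring, h]
    linarith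
  simp only [h1]
  have hc : (2 * (2 * π * (N + 1)) : ℝ) ≠ 0 := by positivity
  have h2 : ∫ t in (0 : ℝ)..1, cos (2 * (2 * π * (N + 1)) * t) = 0 := by
    have hd : ∀ x : ℝ, HasDerivAt (fun t => sin (2 * (2 * π * (N + 1)) * t) /
        (2 * (2 * π * (N + 1)))) (cos (2 * (2 * π * (N + 1)) * x)) x := by
      intro x
      have h3 : HasDerivAt (fun t : ℝ => 2 * (2 * π * (N + 1)) * t)
          (2 * (2 * π * (N + 1)) * 1) x := (hasDerivAt_id x).const_mul _
      have h4 := (h3.sin).div_const (2 * (2 * π * (N + 1)))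
      have h5 : cos (2 * (2 * π * (N + 1)) * x) = cos (2 * (2 * π * (N + 1)) * x) *
          (2 * (2 * π * (N + 1)) * 1) / (2 * (2 * π * (N + 1))) := by
        rw [mul_one, mul_div_assoc, div_self hc, mul_one]
      rw [h5]
      exact h4
    rw [integral_eq_sub_of_hasDerivAt (fun x _ => hd x) (by
      apply Continuous.intervalIntegrable
      fun_prop)]
    have h5 : sin (2 * (2 * π * (N + 1)) * 1) = 0 := by
      have := Real.sin_nat_mul_pi (4 * (N + 1))
      rw [← this]
      congr 1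
      push_cast
      ring
    rw [h5]
    simp
  rw [intervalIntegral.integral_sub (by simp) (by
    apply Continuous.intervalIntegrable
    fun_prop), intervalIntegral.integral_const_mul, h2]
  simp

theorem int_sq (N : ℕ) : ∫ t in (0 : ℝ)..1, g N t ^ 2 =
    π ^ 2 / 12 - (1 / 2) * ∑ k ∈ range N, 1 / ((k : ℝ) + 1) ^ 2 := by
  induction N with
  | zero =>
    simp only [g, range_zero, sum_empty, add_zero, mul_zero, sub_zero, mul_pow]
    rw [intervalIntegral.integral_const_mul]
    have : ∫ t in (0 : ℝ)..1, (t - 1 / 2) ^ 2 = 1 / 12 := by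
      rw [intervalIntegral.integral_comp_sub_right (fun x => x ^ 2) (1 / 2 : ℝ)]
      rw [integral_pow]
      norm_num
    rw [this]
    ring
  | succ N ih =>
    have h1 : ∀ t : ℝ, g (N + 1) t ^ 2 = (g N t ^ 2 + (2 / ((N : ℝ) + 1)) *
        (g N t * sin (2 * π * (N + 1) * t))) +
          (1 / ((N : ℝ) + 1) ^ 2) * sin (2 * π * (N + 1) * t) ^ 2 := by
      intro t
      rw [g_succ]
      field_simp
      ring
    simp only [h1]
    have hg := g_cont N
    rw [intervalIntegral.integral_add, intervalIntegral.integral_add,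
      intervalIntegral.integral_const_mul, intervalIntegral.integral_const_mul, ih, int_g_sin,
      int_sin_sq, sum_range_succ]
    · field_simp
      ring
    all_goals
      apply Continuous.intervalIntegrable
      fun_prop

theorem small (ε : ℝ) (hε : 0 < ε) : ∃ N : ℕ, ∫ t in (0 : ℝ)..1, g N t ^ 2 < ε := by
  have h1 := (hasSum_zeta_two).tendsto_sum_nat
  have h2 : Filter.Tendsto (fun N : ℕ => π ^ 2 / 12 - (1 / 2) *
      ∑ k ∈ range (N + 1), 1 / (k : ℝ) ^ 2) Filter.atTop (nhds (π ^ 2 / 12 - (1 / 2) *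
        (π ^ 2 / 6))) :=
    (h1.comp (Filter.tendsto_add_atTop_nat 1)).const_mul (1 / 2) |>.const_sub _
  have h3 : π ^ 2 / 12 - (1 / 2) * (π ^ 2 / 6) = 0 := by ring
  rw [h3] at h2
  obtain ⟨N, hN⟩ := ((tendsto_order.1 h2).2 ε hε).exists
  refine ⟨N, ?_⟩
  rw [int_sq]
  rw [sum_range_succ'] at hN
  simpa using hN

/-- A continuous function with small `L¹` norm whose Fourier coefficients are `1 / m` for all `m`
with `|m| ≥ R`, and `0` for all other `m`. -/
theorem kernel (ε : ℝ) (hε : 0 < ε) : ∃ R : ℕ, 1 ≤ R ∧ ∃ h : ℝ → ℂ, Continuous h ∧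
    ∫ t in (0 : ℝ)..1, ‖h t‖ ≤ ε ∧
    ∀ m : ℤ, ∫ t in (0 : ℝ)..1, h t * e m t = if (R : ℤ) ≤ |m| then 1 / (m : ℂ) else 0 := by
  obtain ⟨N, hN⟩ := small ((ε / 2) ^ 2) (by positivity)
  have hc : Continuous fun t : ℝ => (2 * Complex.I * (g N t : ℂ)) :=
    continuous_const.mul (Complex.continuous_ofReal.comp (g_cont N))
  refine ⟨N + 1, by omega, fun t => 2 * Complex.I * (g N t : ℂ), hc, ?_, ?_⟩
  · have h1 : ∀ t : ℝ, ‖2 * Complex.I * (g N t : ℂ)‖ ≤ (2 / ε) * g N t ^ 2 + ε / 2 := by
      intro t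
      rw [norm_mul, norm_mul, Complex.norm_I, Complex.norm_real, Complex.norm_two,
        Real.norm_eq_abs, mul_one]
      have h2 : g N t ^ 2 = |g N t| ^ 2 := (sq_abs _).symm
      rw [h2]
      have h3 : 0 ≤ (2 / ε) * (|g N t| - ε / 2) ^ 2 := by positivity
      have h4 : (2 / ε) * (|g N t| - ε / 2) ^ 2 =
          (2 / ε) * |g N t| ^ 2 + ε / 2 - 2 * |g N t| := by
        field_simp
        ring
      linarith
    have h2 : Continuous fun t : ℝ => (2 / ε) * g N t ^ 2 + ε / 2 := by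
      have := g_cont N
      fun_prop
    calc ∫ t in (0 : ℝ)..1, ‖2 * Complex.I * (g N t : ℂ)‖
        ≤ ∫ t in (0 : ℝ)..1, ((2 / ε) * g N t ^ 2 + ε / 2) :=
          intervalIntegral.integral_mono (by norm_num) (hc.norm.intervalIntegrable _ _)
            (h2.intervalIntegrable _ _) h1
      _ = (2 / ε) * (∫ t in (0 : ℝ)..1, g N t ^ 2) + ε / 2 := by
          rw [intervalIntegral.integral_add, intervalIntegral.integral_const_mul]
          · simp
          · apply Continuous.intervalIntegrable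
            have := g_cont N
            fun_prop
          · simp
      _ ≤ (2 / ε) * ((ε / 2) ^ 2) + ε / 2 := by
          have : 0 < 2 / ε := by positivity
          nlinarith
      _ = ε := by
          field_simp
          ring
  · intro m
    have := coef N m
    simp only [this]
    have h : ((N + 1 : ℕ) : ℤ) ≤ |m| ↔ (N : ℤ) < |m| := by
      push_cast
      exact Int.add_one_le_iff
    simp only [h]

/-- The Dirichlet kernel. -/
theorem dirichlet (R : ℕ) : ∃ h : ℝ → ℂ, Continuous h ∧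
    ∫ t in (0 : ℝ)..1, ‖h t‖ ≤ 2 * R ∧
    ∀ m : ℤ, ∫ t in (0 : ℝ)..1, h t * e m t = if |m| < (R : ℤ) then 1 else 0 := by
  have hc : Continuous fun t : ℝ => ∑ k ∈ Finset.Ioo (-(R : ℤ)) R, e (-k) t :=
    continuous_finsetSum _ fun k _ => e_cont _
  refine ⟨fun t => ∑ k ∈ Finset.Ioo (-(R : ℤ)) R, e (-k) t, hc, ?_, ?_⟩
  · have h1 : ∀ t : ℝ, ‖∑ k ∈ Finset.Ioo (-(R : ℤ)) R, e (-k) t‖ ≤ 2 * R := by
      intro t
      refine (norm_sum_le _ _).trans ?_
      have h2 : ∀ k ∈ Finset.Ioo (-(R : ℤ)) R, ‖e (-k) t‖ ≤ 1 := by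
        intro k _
        unfold e
        rw [Complex.norm_exp]
        simp
      refine (sum_le_card_nsmul _ _ _ h2).trans ?_
      rw [Int.card_Ioo, nsmul_eq_mul, mul_one]
      have h3 : ((R : ℤ) - -(R : ℤ) - 1).toNat ≤ 2 * R := by omega
      exact_mod_cast h3
    calc ∫ t in (0 : ℝ)..1, ‖∑ k ∈ Finset.Ioo (-(R : ℤ)) R, e (-k) t‖
        ≤ ∫ t in (0 : ℝ)..1, (2 * R : ℝ) :=
          intervalIntegral.integral_mono (by norm_num) (hc.norm.intervalIntegrable _ _)
            (by simp) h1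
      _ = 2 * R := by simp
  · intro m
    simp only [sum_mul, e_mul]
    rw [intervalIntegral.integral_finsetSum fun k _ => (e_cont _).intervalIntegrable _ _]
    simp only [int_e]
    have h1 : ∀ k : ℤ, (-k + m = 0) ↔ (m = k) := by
      intro k
      omega
    simp only [h1]
    rw [Finset.sum_ite_eq]
    simp only [Finset.mem_Ioo, abs_lt]

end Pool.Agent.X62.NP
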