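import Pool.Agent.X62.NP.Cat
import Pool.Agent.X62.NP.Clu

set_option autoImplicit false

/-! Normal elements with finitely many eigenvalues at distance at most one are joined by a normal
path whose length is at most an absolute constant times the number of eigenvalues of one of them. -/

namespace Pool.Agent.X62.NP

open Finset

variable {A : Type*} [CStarAlgebra A] {ι κ : Type*} [Fintype ι] [Fintype κ]

theorem near_eig {Q : ι → A} {P : κ → A} (hQ : Res Q) (hP : Res P) (α : ι → ℂ) (β : κ → ℂ)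
    (hne : ∀ l, P l ≠ 0) (h : ‖∑ i, α i • Q i - ∑ l, β l • P l‖ ≤ 1) (l : κ) :
    ∃ i, ‖β l - α i‖ ≤ 1 := by
  by_contra hcon
  push Not at hcon
  rcases isEmpty_or_nonempty ι with hι | hι
  · have h1 : (1 : A) = 0 := by rw [← hQ.sum]; simp
    apply hne l
    rw [← one_mul (P l), h1, zero_mul]
  · -- the inverse of `β l - X`
    obtain ⟨i0, -, hi0⟩ := Finset.exists_min_image univ (fun i => ‖β l - α i‖) univ_nonempty
    set m := ‖β l - α i0‖ with hm
    have hm1 : 1 < m := hcon i0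
    have hmi : ∀ i, m ≤ ‖β l - α i‖ := fun i => hi0 i (mem_univ i)
    have hinv : ‖∑ i, (β l - α i)⁻¹ • Q i‖ ≤ m⁻¹ := by
      refine hQ.norm_sum_le _ _ (by positivity) fun i => ?_
      rw [norm_inv]
      exact inv_anti₀ (by linarith) (hmi i)
    have e1 : (∑ i, (β l - α i)⁻¹ • Q i) * (∑ i, (β l - α i) • Q i) = 1 := by
      rw [hQ.mul, ← hQ.sum]
      refine sum_congr rfl fun i _ => ?_
      have : β l - α i ≠ 0 := by
        intro h0
        have := hcon i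
        rw [h0, norm_zero] at this
        linarith
      rw [inv_mul_cancel₀ this, one_smul]
    have e2 : (∑ i, (β l - α i) • Q i) = (β l) • 1 - ∑ i, α i • Q i := by
      rw [← hQ.sum, Finset.smul_sum, ← Finset.sum_sub_distrib]
      exact sum_congr rfl fun i _ => sub_smul _ _ _
    have e3 : (∑ i, (β l - α i) • Q i) * P l =
        -((∑ i, α i • Q i - ∑ l, β l • P l) * P l) := by
      rw [e2, sub_mul, sub_mul, hP.sum_mul, smul_mul_assoc, one_mul]
      abel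
    have e4 : P l = (∑ i, (β l - α i)⁻¹ • Q i) *
        (-((∑ i, α i • Q i - ∑ l, β l • P l) * P l)) := by
      rw [← e3, ← mul_assoc, e1, one_mul]
    have h5 : ‖P l‖ ≤ m⁻¹ * ‖P l‖ := by
      calc ‖P l‖ = ‖(∑ i, (β l - α i)⁻¹ • Q i) *
            (-((∑ i, α i • Q i - ∑ l, β l • P l) * P l))‖ := by rw [← e4]
        _ ≤ ‖∑ i, (β l - α i)⁻¹ • Q i‖ * ‖-((∑ i, α i • Q i - ∑ l, β l • P l) * P l)‖ :=
            norm_mul_le _ _
        _ ≤ m⁻¹ * ‖P l‖ := by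
            refine mul_le_mul hinv ?_ (norm_nonneg _) (by positivity)
            rw [norm_neg]
            refine (norm_mul_le _ _).trans ?_
            calc _ ≤ 1 * ‖P l‖ := mul_le_mul_of_nonneg_right h (norm_nonneg _)
              _ = ‖P l‖ := one_mul _
    have h6 : 0 < ‖P l‖ := norm_pos_iff.2 (hne l)
    have h7 : m⁻¹ < 1 := inv_lt_one_of_one_lt₀ hm1
    nlinarith

theorem floor_near (a b : ℝ) (h : |a - b| ≤ 1) : |⌊a⌋ - ⌊b⌋| ≤ 1 := by
  have h0 := abs_le.1 h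
  rw [abs_le]
  constructor
  · have : ⌊b⌋ < ⌊a⌋ + 2 := by
      rw [Int.floor_lt]
      push_cast
      linarith [Int.lt_floor_add_one a, h0.1]
    omega
  · have : ⌊a⌋ < ⌊b⌋ + 2 := by
      rw [Int.floor_lt]
      push_cast
      linarith [Int.lt_floor_add_one b, h0.2]
    omega

theorem re_part {Q : ι → A} (hQ : Res Q) (α : ι → ℂ) :
    (2 : ℂ) • ∑ i, (((α i).re : ℝ) : ℂ) • Q i = ∑ i, α i • Q i + star (∑ i, α i • Q i) := by
  rw [hQ.star_sum, ← Finset.sum_add_distrib, Finset.smul_sum]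
  refine sum_congr rfl fun i _ => ?_
  rw [← add_smul, smul_smul]
  congr 1
  rw [Complex.star_def, Complex.add_conj]
  push_cast
  ring

theorem im_part {Q : ι → A} (hQ : Res Q) (α : ι → ℂ) :
    (2 * Complex.I : ℂ) • ∑ i, (((α i).im : ℝ) : ℂ) • Q i =
      ∑ i, α i • Q i - star (∑ i, α i • Q i) := by
  rw [hQ.star_sum, ← Finset.sum_sub_distrib, Finset.smul_sum]
  refine sum_congr rfl fun i _ => ?_
  rw [← sub_smul, smul_smul]
  congr 1
  rw [Complex.star_def, Complex.sub_conj]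
  push_cast
  ring

theorem re_diff {Q : ι → A} {P : κ → A} (hQ : Res Q) (hP : Res P) (α : ι → ℂ) (β : κ → ℂ)
    (h : ‖∑ i, α i • Q i - ∑ l, β l • P l‖ ≤ 1) :
    ‖∑ i, (((α i).re : ℝ) : ℂ) • Q i - ∑ l, (((β l).re : ℝ) : ℂ) • P l‖ ≤ 1 := by
  have e : (2 : ℂ) • (∑ i, (((α i).re : ℝ) : ℂ) • Q i - ∑ l, (((β l).re : ℝ) : ℂ) • P l) =
      (∑ i, α i • Q i - ∑ l, β l • P l) + star (∑ i, α i • Q i - ∑ l, β l • P l) := by
    rw [smul_sub, re_part hQ, re_part hP, star_sub]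
    abel
  have h1 : ‖(2 : ℂ) • (∑ i, (((α i).re : ℝ) : ℂ) • Q i - ∑ l, (((β l).re : ℝ) : ℂ) • P l)‖ ≤
      1 + 1 := by
    rw [e]
    refine (norm_add_le _ _).trans (add_le_add h ?_)
    rwa [norm_star]
  rw [norm_smul, Complex.norm_two] at h1
  linarith

theorem im_diff {Q : ι → A} {P : κ → A} (hQ : Res Q) (hP : Res P) (α : ι → ℂ) (β : κ → ℂ)
    (h : ‖∑ i, α i • Q i - ∑ l, β l • P l‖ ≤ 1) :
    ‖∑ i, (((α i).im : ℝ) : ℂ) • Q i - ∑ l, (((β l).im : ℝ) : ℂ) • P l‖ ≤ 1 := by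
  have e : (2 * Complex.I : ℂ) •
      (∑ i, (((α i).im : ℝ) : ℂ) • Q i - ∑ l, (((β l).im : ℝ) : ℂ) • P l) =
      (∑ i, α i • Q i - ∑ l, β l • P l) - star (∑ i, α i • Q i - ∑ l, β l • P l) := by
    rw [smul_sub, im_part hQ, im_part hP, star_sub]
    abel
  have h1 : ‖(2 * Complex.I : ℂ) •
      (∑ i, (((α i).im : ℝ) : ℂ) • Q i - ∑ l, (((β l).im : ℝ) : ℂ) • P l)‖ ≤ 1 + 1 := by
    rw [e]
    refine (norm_sub_le _ _).trans (add_le_add h ?_)
    rwa [norm_star]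
  rw [norm_smul, norm_mul, Complex.norm_two, Complex.norm_I] at h1
  linarith

theorem round_diff {Q : ι → A} {P : κ → A} (hQ : Res Q) (hP : Res P) (a : ι → ℝ) (b : κ → ℝ)
    (h : ‖∑ i, ((a i : ℝ) : ℂ) • Q i - ∑ l, ((b l : ℝ) : ℂ) • P l‖ ≤ 1) :
    ‖∑ i, ((⌊a i⌋ : ℤ) : ℂ) • Q i - ∑ l, ((⌊b l⌋ : ℤ) : ℂ) • P l‖ ≤ 4 := by
  have key : ∀ x : ℝ, ‖((⌊x⌋ : ℤ) : ℂ) - ((x : ℝ) : ℂ)‖ ≤ 1 := by
    intro x
    have e : ((⌊x⌋ : ℤ) : ℂ) - ((x : ℝ) : ℂ) = (((⌊x⌋ : ℝ) - x : ℝ) : ℂ) := by push_cast; rfl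
    rw [e, Complex.norm_real, Real.norm_eq_abs, abs_le]
    exact ⟨by linarith [Int.lt_floor_add_one x], by linarith [Int.floor_le x]⟩
  have h1 := hQ.norm_sum_le (fun i => ((⌊a i⌋ : ℤ) : ℂ) - ((a i : ℝ) : ℂ)) 1 zero_le_one
    fun i => key _
  have h2 := hP.norm_sum_le (fun i => ((⌊b i⌋ : ℤ) : ℂ) - ((b i : ℝ) : ℂ)) 1 zero_le_one
    fun i => key _
  have e : ∑ i, ((⌊a i⌋ : ℤ) : ℂ) • Q i - ∑ l, ((⌊b l⌋ : ℤ) : ℂ) • P l =
      ∑ i, (((⌊a i⌋ : ℤ) : ℂ) - ((a i : ℝ) : ℂ)) • Q i -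
        ∑ i, (((⌊b i⌋ : ℤ) : ℂ) - ((b i : ℝ) : ℂ)) • P i +
          (∑ i, ((a i : ℝ) : ℂ) • Q i - ∑ l, ((b l : ℝ) : ℂ) • P l) := by
    simp only [sub_smul, Finset.sum_sub_distrib]
    abel
  rw [e]
  refine (norm_add_le _ _).trans ?_
  have h3 := (norm_sub_le (∑ i, (((⌊a i⌋ : ℤ) : ℂ) - ((a i : ℝ) : ℂ)) • Q i)
    (∑ i, (((⌊b i⌋ : ℤ) : ℂ) - ((b i : ℝ) : ℂ)) • P i))
  linarith

theorem intertwine {Q : ι → A} {P : κ → A} (hQ : Res Q) (hP : Res P) (j : ι → ℤ) (k : κ → ℤ)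
    (c : ℤ → ℂ) [DecidableEq ℤ] :
    (∑ i, c (j i) • Q i) * (∑ i, ∑ l, (if j i = k l then Q i * P l else 0)) =
      (∑ i, ∑ l, (if j i = k l then Q i * P l else 0)) * (∑ l, c (k l) • P l) := by
  rw [Finset.mul_sum, Finset.sum_mul]
  refine sum_congr rfl fun i _ => ?_
  rw [Finset.mul_sum, Finset.sum_mul]
  refine sum_congr rfl fun l _ => ?_
  split_ifs with h
  · rw [← mul_assoc, hQ.sum_mul, mul_assoc, hP.mul_sum, h, smul_mul_assoc, mul_smul_comm]
  · simp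

/-- The main theorem, for elements with finite spectral resolutions: the eigenvalues of the first
one fall into clusters of diameter at most `D` with mutual distances at least `R`. -/
theorem conn : ∃ C R : ℝ, 0 ≤ C ∧ 0 ≤ R ∧ ∀ (A : Type*) [CStarAlgebra A] (ι κ : Type*) [Fintype ι]
    [Fintype κ] (Q : ι → A) (P : κ → A), Res Q → Res P → (∀ l, P l ≠ 0) → ∀ (α : ι → ℂ) (β : κ → ℂ),
    ‖∑ i, α i • Q i - ∑ l, β l • P l‖ ≤ 1 → ∀ (D : ℝ) (lab : ℂ → ℤ), 0 ≤ D →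
    (∀ i i', lab (α i) = lab (α i') → ‖α i - α i'‖ ≤ D) →
    (∀ i i', lab (α i) ≠ lab (α i') → R ≤ ‖α i - α i'‖) →
    Conn (C * (1 + D)) (∑ i, α i • Q i) (∑ l, β l • P l) := by
  obtain ⟨R, hR⟩ := near_one (1 / 10) (by norm_num)
  refine ⟨400, 2 * (((R + 1 : ℕ) : ℝ) + 1), by positivity, by positivity, ?_⟩
  intro A _ ι κ _ _ Q P hQ hP hne α β hAB D lab hD0 hin hout
  choose ν hν using near_eig hQ hP α β hne hAB
  let cen : ℤ → ℂ := fun m => if h : ∃ i, lab (α i) = m then α h.choose else 0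
  set j : ι → ℤ := fun i => lab (α i) with hj
  set k : κ → ℤ := fun l => lab (α (ν l)) with hk
  have hcen : ∀ i, ‖α i - cen (lab (α i))‖ ≤ D := by
    intro i
    have hex : ∃ i', lab (α i') = lab (α i) := ⟨i, rfl⟩
    have hc : cen (lab (α i)) = α hex.choose := by
      simp only [cen, dif_pos hex]
    rw [hc]
    exact hin _ _ hex.choose_spec.symm
  have hα : ∀ i, ‖α i - cen (j i)‖ ≤ D := fun i => hcen i
  have hβ : ∀ l, ‖β l - cen (k l)‖ ≤ D + 1 := by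
    intro l
    calc ‖β l - cen (k l)‖ = ‖(β l - α (ν l)) + (α (ν l) - cen (k l))‖ := by
          congr 1; ring
      _ ≤ 1 + D := (norm_add_le _ _).trans (add_le_add (hν l) (hcen _))
      _ = D + 1 := by ring
  have c1 := hQ.conn α (fun i => cen (j i)) D hD0 hα
  have c3 := hP.conn β (fun l => cen (k l)) (D + 1) (by positivity) hβ
  classical
  have hsep : ∀ i l, j i ≠ k l → (R : ℤ) ≤ |⌊(α i).re⌋ - ⌊(β l).re⌋| ∨
      (R : ℤ) ≤ |⌊(α i).im⌋ - ⌊(β l).im⌋| := by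
    intro i l h
    have hre : |⌊(β l).re⌋ - ⌊(α (ν l)).re⌋| ≤ 1 := floor_near _ _ (by
      have := Complex.abs_re_le_norm (β l - α (ν l))
      rw [Complex.sub_re] at this
      exact this.trans (hν l))
    have him : |⌊(β l).im⌋ - ⌊(α (ν l)).im⌋| ≤ 1 := floor_near _ _ (by
      have := Complex.abs_im_le_norm (β l - α (ν l))
      rw [Complex.sub_im] at this
      exact this.trans (hν l))
    rcases far_floor _ _ _ (hout i (ν l) h) with h' | h'
    · left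
      have := abs_sub_le ⌊(α i).re⌋ ⌊(β l).re⌋ ⌊(α (ν l)).re⌋
      push_cast at h'
      linarith
    · right
      have := abs_sub_le ⌊(α i).im⌋ ⌊(β l).im⌋ ⌊(α (ν l)).im⌋
      push_cast at h'
      linarith
  have hW := hR A ι κ Q P hQ hP (fun i => ⌊(α i).re⌋) (fun i => ⌊(α i).im⌋) (fun l => ⌊(β l).re⌋)
    (fun l => ⌊(β l).im⌋) j k hsep (round_diff hQ hP _ _ (re_diff hQ hP α β hAB))
    (round_diff hQ hP _ _ (im_diff hQ hP α β hAB))
  set W : A := ∑ i, ∑ l, (if j i = k l then Q i * P l else 0) with hWd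
  have i1 : (∑ i, cen (j i) • Q i) * W = W * (∑ l, cen (k l) • P l) := intertwine hQ hP j k cen
  have i2 : star (∑ i, cen (j i) • Q i) * W = W * star (∑ l, cen (k l) • P l) := by
    rw [hQ.star_sum, hP.star_sum]
    exact intertwine hQ hP j k fun m => star (cen m)
  have c2 := conn_of_intertwine _ _ W (hP.normal _) i1 i2 hW
  have hn : ‖∑ i, cen (j i) • Q i - ∑ l, cen (k l) • P l‖ ≤ 2 * D + 2 := by
    have n1 := hQ.norm_sum_le (fun i => α i - cen (j i)) D hD0 hα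
    have n2 := hP.norm_sum_le (fun l => β l - cen (k l)) (D + 1) (by positivity) hβ
    have e : ∑ i, cen (j i) • Q i - ∑ l, cen (k l) • P l =
        (∑ i, α i • Q i - ∑ l, β l • P l) - ∑ i, (α i - cen (j i)) • Q i +
          ∑ l, (β l - cen (k l)) • P l := by
      simp only [sub_smul, Finset.sum_sub_distrib]
      abel
    rw [e]
    have n3 := norm_add_le ((∑ i, α i • Q i - ∑ l, β l • P l) - ∑ i, (α i - cen (j i)) • Q i)
      (∑ l, (β l - cen (k l)) • P l)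
    have n4 := norm_sub_le (∑ i, α i • Q i - ∑ l, β l • P l) (∑ i, (α i - cen (j i)) • Q i)
    linarith
  have c2' : Conn (24 * (2 * D + 2)) (∑ i, cen (j i) • Q i) (∑ l, cen (k l) • P l) :=
    (c2.mono (by linarith)).symm
  have c4 := (c1.trans hD0 (by positivity) c2').trans (by positivity) (by positivity) c3.symm
  refine c4.mono ?_
  nlinarith

end Pool.Agent.X62.NP
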