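import Pool.Agent.X62.NP.Rot

set_option autoImplicit false

/-! Polar parts of elements close to the identity. -/

namespace Pool.Agent.X62.NP

open Set

variable {A : Type*} [CStarAlgebra A]

theorem spec_near (S : A) (hS : ‖S - 1‖ ≤ 1 / 4) (x : ℝ) (hx : x ∈ spectrum ℝ S) :
    3 / 4 ≤ x ∧ x ≤ 5 / 4 := by
  by_contra hcon
  have h1 : 1 / 4 < |x - 1| := by
    by_contra h
    have h2 := abs_le.1 (not_lt.1 h)
    exact hcon ⟨by linarith [h2.1], by linarith [h2.2]⟩
  apply hx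
  rw [spectrum.mem_resolventSet_iff, Algebra.algebraMap_eq_smul_one]
  have hne : x - 1 ≠ 0 := by
    intro h
    rw [h, abs_zero] at h1
    linarith
  have e : x • (1 : A) - S = (x - 1) • (1 - (x - 1)⁻¹ • (S - 1)) := by
    rw [smul_sub, smul_smul, mul_inv_cancel₀ hne]
    module
  rw [e]
  have hu : IsUnit (1 - (x - 1)⁻¹ • (S - 1)) := by
    apply isUnit_one_sub_of_norm_lt_one
    rw [norm_smul, norm_inv, Real.norm_eq_abs]
    rw [inv_mul_lt_iff₀ (by linarith)]
    linarith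
  exact (isUnit_smul_iff (Units.mk0 _ hne) _).2 hu

theorem sqrt_facts (x : ℝ) (h1 : 3 / 4 ≤ x) (h2 : x ≤ 5 / 4) :
    (Real.sqrt x)⁻¹ * x * (Real.sqrt x)⁻¹ = 1 ∧ |(Real.sqrt x)⁻¹| ≤ 5 / 4 ∧
      |(Real.sqrt x)⁻¹ - 1| ≤ 1 / 5 := by
  have h3 : (4 / 5 : ℝ) ≤ Real.sqrt x := Real.le_sqrt_of_sq_le (by norm_num; linarith)
  have h4 : Real.sqrt x ≤ 6 / 5 := Real.sqrt_le_iff.2 ⟨by norm_num, by norm_num; linarith⟩
  have h5 : Real.sqrt x * Real.sqrt x = x := Real.mul_self_sqrt (by linarith)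
  set s := Real.sqrt x with hs
  have hs0 : 0 < s := by linarith
  refine ⟨?_, ?_, ?_⟩
  · rw [← h5]
    field_simp
  · rw [abs_of_pos (inv_pos.2 hs0)]
    calc s⁻¹ ≤ (4 / 5 : ℝ)⁻¹ := inv_anti₀ (by norm_num) h3
      _ = 5 / 4 := by norm_num
  · have e : s⁻¹ - 1 = (1 - x) / (s * (1 + s)) := by
      rw [← h5]
      field_simp
      ring
    rw [e, abs_div, abs_of_pos (show 0 < s * (1 + s) by positivity), div_le_iff₀ (by positivity)]
    have h6 : |1 - x| ≤ 1 / 4 := abs_le.2 ⟨by linarith, by linarith⟩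
    nlinarith

theorem polar (X Y W : A) (h1 : X * W = W * Y) (h2 : star X * W = W * star Y)
    (hW : ‖1 - W‖ ≤ 1 / 10) :
    ∃ U : A, star U * U = 1 ∧ U * star U = 1 ∧ ‖U - 1‖ ≤ 1 / 2 ∧ X * U = U * Y := by
  set S : A := star W * W with hS
  have hSa : IsSelfAdjoint S := IsSelfAdjoint.star_mul_self W
  have hc : Commute S Y := by
    have e : star W * X = Y * star W := by
      have := congrArg star h2
      rw [star_mul, star_mul, star_star, star_star] at this
      exact this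
    show star W * W * Y = Y * (star W * W)
    rw [mul_assoc, ← h1, ← mul_assoc, e, mul_assoc]
  have hWn : ‖W‖ ≤ 11 / 10 := by
    calc ‖W‖ = ‖1 - (1 - W)‖ := by rw [sub_sub_cancel]
      _ ≤ ‖(1 : A)‖ + ‖1 - W‖ := norm_sub_le _ _
      _ ≤ 1 + 1 / 10 := add_le_add norm_one_le hW
      _ = 11 / 10 := by norm_num
  have hSn : ‖S - 1‖ ≤ 1 / 4 := by
    have e : S - 1 = -(star W * (1 - W)) - star (1 - W) := by
      rw [hS, star_sub, star_one]
      noncomm_ring
    rw [e]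
    calc ‖-(star W * (1 - W)) - star (1 - W)‖ ≤ ‖-(star W * (1 - W))‖ + ‖star (1 - W)‖ :=
          norm_sub_le _ _
      _ ≤ (11 / 10) * (1 / 10) + 1 / 10 := by
          rw [norm_neg, norm_star]
          refine add_le_add ?_ hW
          refine (norm_mul_le _ _).trans ?_
          rw [norm_star]
          exact mul_le_mul hWn hW (norm_nonneg _) (by norm_num)
      _ ≤ 1 / 4 := by norm_num
  have hsp := spec_near S hSn
  have hcont : ContinuousOn (fun x : ℝ => (Real.sqrt x)⁻¹) (spectrum ℝ S) := by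
    refine ContinuousOn.inv₀ Real.continuous_sqrt.continuousOn fun x hx => ?_
    have := (hsp x hx).1
    exact (Real.sqrt_pos.2 (by linarith)).ne'
  set T : A := cfc (fun x : ℝ => (Real.sqrt x)⁻¹) S with hT
  have hTa : star T = T := by
    have : IsSelfAdjoint T := cfc_predicate _ S
    exact this
  have hTY : Commute T Y := hc.cfc_real _
  have hTST : T * S * T = 1 := by
    have e1 : cfc (fun x : ℝ => x) S = S := cfc_id' ℝ S
    conv_lhs => rw [← e1]
    rw [hT, ← cfc_mul (fun x : ℝ => (Real.sqrt x)⁻¹) (fun x : ℝ => x) S hcont (by fun_prop),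
      ← cfc_mul (fun x : ℝ => (Real.sqrt x)⁻¹ * x) (fun x : ℝ => (Real.sqrt x)⁻¹) S
        (hcont.mul (by fun_prop)) hcont]
    rw [← cfc_const_one ℝ S]
    refine cfc_congr fun x hx => ?_
    exact (sqrt_facts x (hsp x hx).1 (hsp x hx).2).1
  have hTn : ‖T‖ ≤ 5 / 4 := by
    refine norm_cfc_le (by norm_num) fun x hx => ?_
    exact (sqrt_facts x (hsp x hx).1 (hsp x hx).2).2.1
  have hT1 : ‖T - 1‖ ≤ 1 / 5 := by
    have e : T - 1 = cfc (fun x : ℝ => (Real.sqrt x)⁻¹ - 1) S := by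
      rw [cfc_sub _ _ S hcont (by fun_prop), cfc_const_one ℝ S]
    rw [e]
    refine norm_cfc_le (by norm_num) fun x hx => ?_
    exact (sqrt_facts x (hsp x hx).1 (hsp x hx).2).2.2
  have hTS : T * S = S * T := by
    have : Commute T S := (Commute.refl S).cfc_real _
    exact this
  have hTu : IsUnit T := by
    refine ⟨⟨T, S * T, ?_, ?_⟩, rfl⟩
    · rw [← mul_assoc]; exact hTST
    · rw [← hTS]; exact hTST
  have hWu : IsUnit W := by
    have := isUnit_one_sub_of_norm_lt_one (x := 1 - W) (lt_of_le_of_lt hW (by norm_num))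
    rwa [sub_sub_cancel] at this
  have hUu : IsUnit (W * T) := hWu.mul hTu
  have hUU : star (W * T) * (W * T) = 1 := by
    rw [star_mul, hTa]
    calc T * star W * (W * T) = T * (star W * W) * T := by noncomm_ring
      _ = 1 := hTST
  refine ⟨W * T, hUU, ?_, ?_, ?_⟩
  · obtain ⟨u, hu⟩ := hUu
    have e : star (W * T) = ((u⁻¹ : Aˣ) : A) := by
      rw [← hu] at hUU ⊢
      exact Units.eq_inv_of_mul_eq_one_right hUU
    rw [e, ← hu, Units.mul_inv]
  · have e : W * T - 1 = (T - 1) - (1 - W) * T := by noncomm_ring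
    rw [e]
    calc ‖(T - 1) - (1 - W) * T‖ ≤ ‖T - 1‖ + ‖(1 - W) * T‖ := norm_sub_le _ _
      _ ≤ 1 / 5 + (1 / 10) * (5 / 4) := by
          refine add_le_add hT1 ((norm_mul_le _ _).trans ?_)
          exact mul_le_mul hW hTn (norm_nonneg _) (by norm_num)
      _ ≤ 1 / 2 := by norm_num
  · rw [← mul_assoc, h1, mul_assoc, mul_assoc, hTY.eq]

/-- Two intertwined normal elements are joined by a short path of normal elements. -/
theorem conn_of_intertwine (X Y W : A) (hY : IsStarNormal Y) (h1 : X * W = W * Y)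
    (h2 : star X * W = W * star Y) (hW : ‖1 - W‖ ≤ 1 / 10) :
    Conn (24 * ‖X - Y‖) Y X := by
  obtain ⟨U, u1, u2, u3, u4⟩ := polar X Y W h1 h2 hW
  have h := rot U Y u1 u2 u3 hY
  have e1 : U * Y * star U = X := by
    rw [← u4, mul_assoc, u2, mul_one]
  rw [e1] at h
  obtain ⟨γ, g0, g1, gn, gl⟩ := h
  refine ⟨γ, g0, g1, gn, fun s hs t ht => (gl s hs t ht).trans ?_⟩
  have hUn : ‖U‖ ≤ 1 := by
    have e := CStarRing.norm_star_mul_self (x := U)
    rw [u1] at e
    have := norm_one_le (A := A)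
    nlinarith [norm_nonneg U]
  have e2 : ‖U * Y - Y * U‖ ≤ ‖X - Y‖ := by
    rw [← u4, ← sub_mul]
    calc ‖(X - Y) * U‖ ≤ ‖X - Y‖ * ‖U‖ := norm_mul_le _ _
      _ ≤ ‖X - Y‖ * 1 := mul_le_mul_of_nonneg_left hUn (norm_nonneg _)
      _ = ‖X - Y‖ := mul_one _
  exact mul_le_mul_of_nonneg_right (by linarith) (abs_nonneg _)

end Pool.Agent.X62.NP
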