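import Mathlib

set_option autoImplicit false

/-! Rotations close to the identity: Lipschitz paths of normal elements of a `C*`-algebra. -/

namespace Pool.Agent.X62.NP

open Set

variable {A : Type*} [CStarAlgebra A]

/-- `X` and `Y` are joined by a `K`-Lipschitz path of normal elements over `[0, 1]`. -/
def Conn (K : ℝ) (X Y : A) : Prop :=
  ∃ γ : ℝ → A, γ 0 = X ∧ γ 1 = Y ∧ (∀ t ∈ Icc (0 : ℝ) 1, IsStarNormal (γ t)) ∧
    ∀ s ∈ Icc (0 : ℝ) 1, ∀ t ∈ Icc (0 : ℝ) 1, ‖γ s - γ t‖ ≤ K * |s - t|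

theorem norm_one_le : ‖(1 : A)‖ ≤ 1 := by
  rcases subsingleton_or_nontrivial A with h | h
  · rw [Subsingleton.elim (1 : A) 0, norm_zero]
    exact zero_le_one
  · exact (CStarRing.norm_one (E := A)).le

theorem neumann (x : A) (r : ℝ) (hr : r < 1) (hx : ‖x‖ ≤ r) :
    (1 - x) * Ring.inverse (1 - x) = 1 ∧ Ring.inverse (1 - x) * (1 - x) = 1 ∧
      ‖Ring.inverse (1 - x)‖ ≤ 1 / (1 - r) := by
  have hu : IsUnit (1 - x) := isUnit_one_sub_of_norm_lt_one (lt_of_le_of_lt hx hr)
  have h1 : (1 - x) * Ring.inverse (1 - x) = 1 := Ring.mul_inverse_cancel _ hu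
  have h2 : Ring.inverse (1 - x) * (1 - x) = 1 := Ring.inverse_mul_cancel _ hu
  refine ⟨h1, h2, ?_⟩
  set y := Ring.inverse (1 - x) with hy
  have h3 : y = 1 + x * y := by
    have : (1 - x) * y = y - x * y := by noncomm_ring
    rw [this] at h1
    rw [← h1]
    abel
  have h4 : ‖y‖ ≤ 1 + r * ‖y‖ := by
    calc ‖y‖ = ‖1 + x * y‖ := by rw [← h3]
      _ ≤ ‖(1 : A)‖ + ‖x * y‖ := norm_add_le _ _
      _ ≤ 1 + ‖x‖ * ‖y‖ := add_le_add norm_one_le (norm_mul_le _ _)
      _ ≤ 1 + r * ‖y‖ := by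
          have := mul_le_mul_of_nonneg_right hx (norm_nonneg y)
          linarith
  rw [le_div_iff₀ (by linarith)]
  linarith

theorem normal_conj (V B : A) (hV : star V * V = 1) (hB : IsStarNormal B) :
    IsStarNormal (V * B * star V) := by
  constructor
  have h := hB.star_comm_self
  show star (V * B * star V) * (V * B * star V) = (V * B * star V) * star (V * B * star V)
  have h' : star B * B = B * star B := h
  rw [star_mul, star_mul, star_star]
  calc V * (star B * star V) * (V * B * star V)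
      = V * star B * (star V * V) * B * star V := by noncomm_ring
    _ = V * (star B * B) * star V := by rw [hV]; noncomm_ring
    _ = V * (B * star B) * star V := by rw [h']
    _ = V * B * (star V * V) * star B * star V := by rw [hV]; noncomm_ring
    _ = V * B * star V * (V * (star B * star V)) := by noncomm_ring

theorem rot (U B : A) (h1 : star U * U = 1) (h2 : U * star U = 1) (hU : ‖U - 1‖ ≤ 1 / 2)
    (hB : IsStarNormal B) : Conn (24 * ‖U * B - B * U‖) B (U * B * star U) := by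
  -- the inverse of `U + 1`
  obtain ⟨hy1, hy2, hyn⟩ := neumann (-((1 / 2 : ℂ) • (U - 1))) (1 / 4) (by norm_num) (by
    rw [norm_neg, norm_smul]
    have : ‖(1 / 2 : ℂ)‖ = 1 / 2 := by norm_num
    rw [this]
    linarith)
  set y : A := Ring.inverse (1 - -((1 / 2 : ℂ) • (U - 1))) with hy
  set q : A := (1 / 2 : ℂ) • y with hq
  have hUp : U + 1 = (2 : ℂ) • (1 - -((1 / 2 : ℂ) • (U - 1))) := by
    module
  have hq1 : (U + 1) * q = 1 := by
    rw [hUp, hq, smul_mul_assoc, mul_smul_comm, hy1, smul_smul]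
    norm_num
  have hq2 : q * (U + 1) = 1 := by
    rw [hUp, hq, smul_mul_assoc, mul_smul_comm, hy2, smul_smul]
    norm_num
  have hqn : ‖q‖ ≤ 2 / 3 := by
    rw [hq, norm_smul]
    have : ‖(1 / 2 : ℂ)‖ = 1 / 2 := by norm_num
    rw [this]
    norm_num at hyn ⊢
    linarith
  have hqU : q * U = U * q := by
    have e1 : q * (U + 1) = q * U + q := by noncomm_ring
    have e2 : (U + 1) * q = U * q + q := by noncomm_ring
    rw [e1] at hq2
    rw [e2, ← hq2] at hq1
    exact (add_right_cancel hq1).symm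
  set H : A := (U - 1) * q with hH
  have hHn : ‖H‖ ≤ 1 / 2 := by
    calc ‖H‖ ≤ ‖U - 1‖ * ‖q‖ := norm_mul_le _ _
      _ ≤ (1 / 2) * (2 / 3) := mul_le_mul hU hqn (norm_nonneg _) (by norm_num)
      _ ≤ 1 / 2 := by norm_num
  -- `H` is skew
  have hsq : star q = q * U := by
    -- star q is the inverse of star U + 1
    have e1 : star q * (star U + 1) = 1 := by
      have := congrArg star hq1
      rwa [star_mul, star_add, star_one] at this
    have e2 : (star U + 1) * (q * U) = 1 := by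
      calc (star U + 1) * (q * U) = (star U + 1) * (U * q) := by rw [hqU]
        _ = (star U * U + U) * q := by noncomm_ring
        _ = (U + 1) * q := by rw [h1]; noncomm_ring
        _ = 1 := hq1
    calc star q = star q * ((star U + 1) * (q * U)) := by rw [e2, mul_one]
      _ = (star q * (star U + 1)) * (q * U) := by noncomm_ring
      _ = q * U := by rw [e1, one_mul]
  have hHs : star H = -H := by
    rw [hH, star_mul, hsq, star_sub, star_one]
    calc q * U * (star U - 1) = q * (U * star U - U) := by noncomm_ring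
      _ = q - q * U := by rw [h2]; noncomm_ring
      _ = q - U * q := by rw [hqU]
      _ = -((U - 1) * q) := by noncomm_ring
  have hm1 : 1 - H = 2 * q := by
    have e : (1 : A) - H = (U + 1) * q - (U - 1) * q := by rw [hq1]
    rw [e]
    noncomm_ring
  have hp1 : 1 + H = 2 * (U * q) := by
    have e : (1 : A) + H = (U + 1) * q + (U - 1) * q := by rw [hq1]
    rw [e]
    noncomm_ring
  set C : A := H * B - B * H with hC
  have hCn : ‖C‖ ≤ ‖U * B - B * U‖ := by
    have e : C = 2 * (q * (U * B - B * U) * q) := by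
      have e1 : H = 1 - 2 * q := by rw [← hm1]; abel
      have e2 : C = 2 * (B * q - q * B) := by
        rw [hC, e1]
        noncomm_ring
      rw [e2]
      congr 1
      calc B * q - q * B = (q * (U + 1)) * B * q - q * B * ((U + 1) * q) := by
            rw [hq1, hq2, one_mul, mul_one]
        _ = q * (U * B - B * U) * q := by noncomm_ring
    rw [e]
    have h2n : ‖(2 : A)‖ ≤ 2 := by
      have : (2 : A) = 1 + 1 := by norm_num
      rw [this]
      refine (norm_add_le _ _).trans ?_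
      have := norm_one_le (A := A)
      linarith
    have hX := norm_nonneg (U * B - B * U)
    calc ‖2 * (q * (U * B - B * U) * q)‖ ≤ ‖(2 : A)‖ * ‖q * (U * B - B * U) * q‖ :=
          norm_mul_le _ _
      _ ≤ 2 * ((2 / 3) * ‖U * B - B * U‖ * (2 / 3)) := by
          refine mul_le_mul h2n ?_ (norm_nonneg _) (by norm_num)
          calc ‖q * (U * B - B * U) * q‖ ≤ ‖q * (U * B - B * U)‖ * ‖q‖ := norm_mul_le _ _
            _ ≤ ((2 / 3) * ‖U * B - B * U‖) * (2 / 3) := by
                refine mul_le_mul ?_ hqn (norm_nonneg _) (by positivity)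
                exact (norm_mul_le _ _).trans (mul_le_mul_of_nonneg_right hqn (norm_nonneg _))
      _ ≤ ‖U * B - B * U‖ := by nlinarith
  -- resolvents
  set r : ℝ → A := fun t => Ring.inverse (1 - (t : ℂ) • H) with hr
  have hrt : ∀ t ∈ Icc (-1 : ℝ) 1, (1 - (t : ℂ) • H) * r t = 1 ∧ r t * (1 - (t : ℂ) • H) = 1 ∧
      ‖r t‖ ≤ 2 := by
    intro t ht
    have h3 : ‖(t : ℂ) • H‖ ≤ 1 / 2 := by
      rw [norm_smul, Complex.norm_real, Real.norm_eq_abs]
      have : |t| ≤ 1 := abs_le.2 ht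
      nlinarith [norm_nonneg H, abs_nonneg t]
    have h4 := neumann ((t : ℂ) • H) (1 / 2) (by norm_num) h3
    norm_num at h4 ⊢
    exact h4
  have hrd : ∀ s ∈ Icc (-1 : ℝ) 1, ∀ t ∈ Icc (-1 : ℝ) 1, ‖r s - r t‖ ≤ 2 * |s - t| := by
    intro s hs t ht
    obtain ⟨s1, s2, s3⟩ := hrt s hs
    obtain ⟨t1, t2, t3⟩ := hrt t ht
    have e : r s - r t = ((s - t : ℝ) : ℂ) • (r s * H * r t) := by
      calc r s - r t = r s * ((1 - (t : ℂ) • H) * r t) - (r s * (1 - (s : ℂ) • H)) * r t := by
            rw [s2, t1, one_mul, mul_one]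
        _ = r s * ((1 - (t : ℂ) • H) - (1 - (s : ℂ) • H)) * r t := by noncomm_ring
        _ = r s * (((s - t : ℝ) : ℂ) • H) * r t := by
            congr 2
            push_cast
            rw [sub_smul]
            abel
        _ = _ := by rw [mul_smul_comm, smul_mul_assoc]
    rw [e, norm_smul, Complex.norm_real, Real.norm_eq_abs]
    have : ‖r s * H * r t‖ ≤ 2 := by
      calc ‖r s * H * r t‖ ≤ ‖r s * H‖ * ‖r t‖ := norm_mul_le _ _
        _ ≤ (2 * (1 / 2)) * 2 := by
            refine mul_le_mul ?_ t3 (norm_nonneg _) (by norm_num)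
            exact (norm_mul_le _ _).trans (mul_le_mul s3 hHn (norm_nonneg _) (by norm_num))
        _ = 2 := by norm_num
    nlinarith [abs_nonneg (s - t)]
  -- the path
  have hneg : ∀ t ∈ Icc (0 : ℝ) 1, t ∈ Icc (-1 : ℝ) 1 ∧ -t ∈ Icc (-1 : ℝ) 1 := by
    intro t ht
    exact ⟨⟨by linarith [ht.1], ht.2⟩, ⟨by linarith [ht.2], by linarith [ht.1]⟩⟩
  have hpath : ∀ t ∈ Icc (0 : ℝ) 1,
      r t * (1 + (t : ℂ) • H) * B * ((1 - (t : ℂ) • H) * r (-t)) =
        B + ((2 * t : ℝ) : ℂ) • (r t * C * r (-t)) := by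
    intro t ht
    obtain ⟨t1, t2, t3⟩ := hrt t (hneg t ht).1
    obtain ⟨u1, u2, u3⟩ := hrt (-t) (hneg t ht).2
    have hn1 : (1 - ((-t : ℝ) : ℂ) • H) = 1 + (t : ℂ) • H := by
      push_cast
      rw [neg_smul, sub_neg_eq_add]
    rw [hn1] at u1 u2
    have e1 : ((2 * t : ℝ) : ℂ) • (r t * C * r (-t)) =
        2 * (r t * (((t : ℂ) • H) * B - B * ((t : ℂ) • H)) * r (-t)) := by
      rw [hC, smul_mul_assoc, mul_smul_comm, ← smul_sub, mul_smul_comm, smul_mul_assoc]
      push_cast
      rw [mul_smul, two_smul, two_mul]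
    rw [e1]
    set K := (t : ℂ) • H with hK
    calc r t * (1 + K) * B * ((1 - K) * r (-t))
        = (r t * (1 - K)) * B * ((1 + K) * r (-t)) +
          2 * (r t * (K * B - B * K) * r (-t)) := by noncomm_ring
      _ = B + 2 * (r t * (K * B - B * K) * r (-t)) := by rw [t2, u1, one_mul, mul_one]
  have hstar : ∀ t ∈ Icc (0 : ℝ) 1, star (r t) = r (-t) := by
    intro t ht
    obtain ⟨t1, t2, t3⟩ := hrt t (hneg t ht).1
    obtain ⟨u1, u2, u3⟩ := hrt (-t) (hneg t ht).2
    have e1 : star (r t) * (1 - ((-t : ℝ) : ℂ) • H) = 1 := by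
      have := congrArg star t1
      rw [star_mul, star_sub, star_one, star_smul, hHs] at this
      have e : (star (t : ℂ)) • (-H) = ((-t : ℝ) : ℂ) • H := by
        simp
      rwa [e] at this
    calc star (r t) = star (r t) * ((1 - ((-t : ℝ) : ℂ) • H) * r (-t)) := by rw [u1, mul_one]
      _ = (star (r t) * (1 - ((-t : ℝ) : ℂ) • H)) * r (-t) := by noncomm_ring
      _ = r (-t) := by rw [e1, one_mul]
  refine ⟨fun t => r t * (1 + (t : ℂ) • H) * B * ((1 - (t : ℂ) • H) * r (-t)), ?_, ?_, ?_, ?_⟩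
  · have h0 := hpath 0 ⟨le_rfl, zero_le_one⟩
    simp only at h0 ⊢
    rw [h0]
    simp
  · have h01 : (1 : ℝ) ∈ Icc (0 : ℝ) 1 := ⟨zero_le_one, le_rfl⟩
    obtain ⟨t1, t2, t3⟩ := hrt 1 (hneg 1 h01).1
    obtain ⟨u1, u2, u3⟩ := hrt (-1) (hneg 1 h01).2
    have hr1 : r 1 * (1 + H) = U := by
      -- r 1 * (1 - H) = 1 and 1 + H = (1 - H) * U
      have e : 1 + H = (1 - H) * U := by
        rw [hp1, hm1, mul_assoc, hqU]
      have t2' : r 1 * (1 - H) = 1 := by simpa using t2
      rw [e, ← mul_assoc, t2', one_mul]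
    have hr2 : (1 - H) * r (-1) = star U := by
      have e := congrArg star hr1
      rw [star_mul, star_add, star_one, hHs, hstar 1 h01] at e
      rw [← e]
      congr 1
      abel
    simp only [Complex.ofReal_one, one_smul]
    rw [hr1, hr2]
  · intro t ht
    obtain ⟨t1, t2, t3⟩ := hrt t (hneg t ht).1
    obtain ⟨u1, u2, u3⟩ := hrt (-t) (hneg t ht).2
    have hn1 : (1 - ((-t : ℝ) : ℂ) • H) = 1 + (t : ℂ) • H := by
      push_cast
      rw [neg_smul, sub_neg_eq_add]
    rw [hn1] at u1 u2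
    have es : star (r t * (1 + (t : ℂ) • H)) = (1 - (t : ℂ) • H) * r (-t) := by
      rw [star_mul, hstar t ht, star_add, star_one, star_smul, hHs]
      congr 1
      simp [sub_eq_add_neg]
    show IsStarNormal (r t * (1 + (t : ℂ) • H) * B * ((1 - (t : ℂ) • H) * r (-t)))
    rw [← es]
    refine normal_conj _ _ ?_ hB
    rw [es]
    set K := (t : ℂ) • H with hK
    have hcomm : r (-t) * r t = r t * r (-t) := by
      calc r (-t) * r t = (r t * (1 - K)) * (r (-t) * r t) := by rw [t2, one_mul]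
        _ = r t * ((1 - K) * (r (-t) * (((1 + K) * r (-t)) * r t))) := by
            rw [u1, one_mul]; noncomm_ring
        _ = r t * (((1 - K) * (r (-t) * (1 + K))) * (r (-t) * r t)) := by noncomm_ring
        _ = r t * ((1 - K) * (r (-t) * r t)) := by rw [u2, mul_one]
        _ = r t * (((r (-t) * (1 + K)) * (1 - K)) * (r (-t) * r t)) := by rw [u2, one_mul]
        _ = r t * (r (-t) * ((1 - K) * ((1 + K) * r (-t)) * r t)) := by noncomm_ring
        _ = r t * (r (-t) * ((1 - K) * r t)) := by rw [u1, mul_one]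
        _ = r t * r (-t) := by rw [t1, mul_one]
    calc (1 - K) * r (-t) * (r t * (1 + K)) = (1 - K) * (r (-t) * r t) * (1 + K) := by
          noncomm_ring
      _ = ((1 - K) * r t) * (r (-t) * (1 + K)) := by rw [hcomm]; noncomm_ring
      _ = 1 := by rw [t1, u2, one_mul]
  · intro s hs t ht
    show ‖r s * (1 + (s : ℂ) • H) * B * ((1 - (s : ℂ) • H) * r (-s)) -
      r t * (1 + (t : ℂ) • H) * B * ((1 - (t : ℂ) • H) * r (-t))‖ ≤ _
    rw [hpath s hs, hpath t ht]
    obtain ⟨s1, s2, s3⟩ := hrt s (hneg s hs).1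
    obtain ⟨s1', s2', s3'⟩ := hrt (-s) (hneg s hs).2
    obtain ⟨t1, t2, t3⟩ := hrt t (hneg t ht).1
    obtain ⟨t1', t2', t3'⟩ := hrt (-t) (hneg t ht).2
    have d1 := hrd s (hneg s hs).1 t (hneg t ht).1
    have d2 := hrd (-s) (hneg s hs).2 (-t) (hneg t ht).2
    have d3 : |(-s) - (-t)| = |s - t| := by
      rw [show (-s) - (-t) = -(s - t) by ring, abs_neg]
    rw [d3] at d2
    have e : B + ((2 * s : ℝ) : ℂ) • (r s * C * r (-s)) -
        (B + ((2 * t : ℝ) : ℂ) • (r t * C * r (-t))) =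
        ((2 * (s - t) : ℝ) : ℂ) • (r s * C * r (-s)) +
          ((2 * t : ℝ) : ℂ) • ((r s - r t) * C * r (-s)) +
            ((2 * t : ℝ) : ℂ) • (r t * C * (r (-s) - r (-t))) := by
      have e1 : (r s - r t) * C * r (-s) = r s * C * r (-s) - r t * C * r (-s) := by noncomm_ring
      have e2 : r t * C * (r (-s) - r (-t)) = r t * C * r (-s) - r t * C * r (-t) := by
        noncomm_ring
      rw [e1, e2]
      push_cast
      module
    rw [e]
    have hab := abs_nonneg (s - t)
    have hC0 := norm_nonneg C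
    have ht1 : |t| ≤ 1 := abs_le.2 (hneg t ht).1
    have n1 : ‖((2 * (s - t) : ℝ) : ℂ) • (r s * C * r (-s))‖ ≤ 8 * |s - t| * ‖C‖ := by
      rw [norm_smul, Complex.norm_real, Real.norm_eq_abs, abs_mul, abs_two]
      have : ‖r s * C * r (-s)‖ ≤ 2 * ‖C‖ * 2 := by
        refine (norm_mul_le _ _).trans (mul_le_mul ?_ s3' (norm_nonneg _) (by positivity))
        exact (norm_mul_le _ _).trans (mul_le_mul_of_nonneg_right s3 (norm_nonneg _))
      calc 2 * |s - t| * ‖r s * C * r (-s)‖ ≤ 2 * |s - t| * (2 * ‖C‖ * 2) :=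
            mul_le_mul_of_nonneg_left this (by positivity)
        _ = 8 * |s - t| * ‖C‖ := by ring
    have n2 : ‖((2 * t : ℝ) : ℂ) • ((r s - r t) * C * r (-s))‖ ≤ 8 * |s - t| * ‖C‖ := by
      rw [norm_smul, Complex.norm_real, Real.norm_eq_abs, abs_mul, abs_two]
      have : ‖(r s - r t) * C * r (-s)‖ ≤ (2 * |s - t|) * ‖C‖ * 2 := by
        refine (norm_mul_le _ _).trans (mul_le_mul ?_ s3' (norm_nonneg _) (by positivity))
        exact (norm_mul_le _ _).trans (mul_le_mul_of_nonneg_right d1 (norm_nonneg _))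
      calc 2 * |t| * ‖(r s - r t) * C * r (-s)‖ ≤ (2 * 1) * ((2 * |s - t|) * ‖C‖ * 2) :=
            mul_le_mul (by linarith) this (norm_nonneg _) (by norm_num)
        _ = 8 * |s - t| * ‖C‖ := by ring
    have n3 : ‖((2 * t : ℝ) : ℂ) • (r t * C * (r (-s) - r (-t)))‖ ≤ 8 * |s - t| * ‖C‖ := by
      rw [norm_smul, Complex.norm_real, Real.norm_eq_abs, abs_mul, abs_two]
      have : ‖r t * C * (r (-s) - r (-t))‖ ≤ 2 * ‖C‖ * (2 * |s - t|) := by
        refine (norm_mul_le _ _).trans (mul_le_mul ?_ d2 (norm_nonneg _) (by positivity))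
        exact (norm_mul_le _ _).trans (mul_le_mul_of_nonneg_right t3 (norm_nonneg _))
      calc 2 * |t| * ‖r t * C * (r (-s) - r (-t))‖ ≤ (2 * 1) * (2 * ‖C‖ * (2 * |s - t|)) :=
            mul_le_mul (by linarith) this (norm_nonneg _) (by norm_num)
        _ = 8 * |s - t| * ‖C‖ := by ring
    calc _ ≤ 8 * |s - t| * ‖C‖ + 8 * |s - t| * ‖C‖ + 8 * |s - t| * ‖C‖ :=
          (norm_add₃_le).trans (add_le_add (add_le_add n1 n2) n3)
      _ = 24 * ‖C‖ * |s - t| := by ring
      _ ≤ 24 * ‖U * B - B * U‖ * |s - t| := by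
          refine mul_le_mul_of_nonneg_right ?_ hab
          linarith

end Pool.Agent.X62.NP
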